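import Pool.Agent.Helper33.Iso.Goals2

/-!
# Orbifolds covered by a Euclidean space, linear at a singular point: assembly
-/

set_option autoImplicit false

open Topology unitInterval RealInnerProductSpace
open Pool.Agent.Helper72.Orb

namespace Pool.Agent.Helper33.Iso

universe u v w

noncomputable section

section Stab

variable {H : Type u} [Group H] {V : Type w} [NormedAddCommGroup V]
  [InnerProductSpace ℝ V] [MulAction H V]

theorem orth_stab (hL : IsLinearAtZero H V) :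
    IsOrthogonalAction (MulAction.stabilizer H (0 : V)) V where
  smul_add h v w := hL.smul_add h.1 (MulAction.mem_stabilizer_iff.1 h.2) v w
  smul_smul h r v := hL.smul_smul h.1 (MulAction.mem_stabilizer_iff.1 h.2) r v
  norm_smul h v := hL.norm_smul h.1 (MulAction.mem_stabilizer_iff.1 h.2) v
  faithful h hh := Subtype.ext (hL.faithful h.1 hh)

theorem finite_stab (hL : IsLinearAtZero H V) : Finite (MulAction.stabilizer H (0 : V)) :=
  hL.finite.to_subtype

/-- Two scaled points near the origin which are related by an element of `H` are related by an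
element of the stabilizer. -/
theorem rel_stab (hL : IsLinearAtZero H V) {R r : ℝ} (hr : 0 < r)
    (hdisc : ∀ h : H, (∃ v : V, ‖v‖ < R ∧ ‖h • v‖ < R) → h • (0 : V) = 0) {X Y : V}
    (hX : r * ‖X‖ < R) (hY : r * ‖Y‖ < R) {h : H} (e : r • Y = h • (r • X)) :
    ∃ h' : MulAction.stabilizer H (0 : V), h'.1 = h ∧ Y = h' • X := by
  have hX' : ‖r • X‖ < R := by rwa [norm_smul, Real.norm_eq_abs, abs_of_pos hr]
  have hY' : ‖r • Y‖ < R := by rwa [norm_smul, Real.norm_eq_abs, abs_of_pos hr]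
  have h0 : h • (0 : V) = 0 := hdisc h ⟨r • X, hX', by rw [← e]; exact hY'⟩
  refine ⟨⟨h, MulAction.mem_stabilizer_iff.2 h0⟩, rfl, ?_⟩
  rw [hL.smul_smul h h0] at e
  exact smul_right_injective V hr.ne' e

/-- The scaled configuration. -/
def scaleConf (hL : IsLinearAtZero H V) {R r : ℝ} (hr : 0 < r)
    (hdisc : ∀ h : H, (∃ v : V, ‖v‖ < R ∧ ‖h • v‖ < R) → h • (0 : V) = 0) {n : ℕ}
    (x : OrbitConf (MulAction.stabilizer H (0 : V)) V n) (hx : ∀ i, r * ‖x.1 i‖ < R) :
    OrbitConf H V n :=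
  ⟨fun i => r • x.1 i, fun i j hij h e => by
    obtain ⟨h', -, he⟩ := rel_stab hL hr hdisc (hx j) (hx i) e
    exact x.2 i j hij h' he⟩

end Stab

theorem mainiso_of (hINJ : INJONE.{u, v, w}) (hSPH : SPHERE.{w, w})
    (hGAP : GAP.{u, w}) (hAV : AVOID.{u, w}) (hMAPS : MAPS.{w}) (hNO : NOPSI.{w}) :
    MAINISO.{u, v, w} := by
  intro H _ V _ _ _ _ E _ _ hL hF' hd hE hQ
  have hfin := finite_stab hL
  have hV := orth_stab hL
  set H₀ := MulAction.stabilizer H (0 : V) with hH₀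
  have hF : FreeOff H₀ V := by
    intro h hh x hx
    refine hF' h.1 (fun e => hh (Subtype.ext e)) (MulAction.mem_stabilizer_iff.1 h.2) x hx
  obtain ⟨R, hR, hdisc⟩ := hL.discrete
  obtain ⟨h1, hh1, hh10⟩ := hL.nontrivial
  set h0 : H₀ := ⟨h1, MulAction.mem_stabilizer_iff.2 hh10⟩ with hh0def
  have hh0 : h0 ≠ 1 := fun e => hh1 (congrArg Subtype.val e)
  set r : ℝ := R / 10 with hrdef
  have hr : 0 < r := by positivity
  have hr5 : ∀ x : V, ‖x‖ < 5 → r * ‖x‖ < R := by
    intro x hx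
    have := norm_nonneg x
    rw [hrdef]
    nlinarith
  have hnt : Nontrivial V := Module.nontrivial_of_finrank_pos (R := ℝ) (by omega)
  obtain ⟨p, hp⟩ : ∃ p : V, ‖p‖ = 1 := exists_norm_eq V zero_le_one
  obtain ⟨c, hc, hc2, hgap⟩ := hGAP H₀ V hV hF
  have hp' : ‖h0 • p‖ = 1 := by rw [hV.norm_smul, hp]
  set δ : ℝ := c ^ 2 / 100 with hδ
  have hδ0 : 0 < δ := by positivity
  have hcc : c ^ 2 ≤ 4 := by nlinarith
  have hδ50 : δ < c ^ 2 / 50 := by
    have : 0 < c ^ 2 := by positivity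
    rw [hδ]; linarith
  have hδ1 : δ < 1 := by rw [hδ]; linarith
  have hdist : c ≤ ‖h0 • p - p‖ := by
    have := hgap h0 hh0 p
    rwa [hp, mul_one] at this
  have hd2 : c ^ 2 ≤ ‖h0 • p - p‖ ^ 2 := by
    have := norm_nonneg (h0 • p - p)
    nlinarith
  have hsub : ‖h0 • p - p‖ ^ 2 = 2 - 2 * ⟪h0 • p, p⟫ := by
    rw [norm_sub_sq_real, hp', hp]; ring
  have hadd : ‖p + h0 • p‖ ^ 2 = 2 + 2 * ⟪h0 • p, p⟫ := by
    rw [norm_add_sq_real, hp', hp, real_inner_comm]; ring
  have hδi : δ < 1 - ⟪h0 • p, p⟫ := by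
    have : 0 < c ^ 2 := by positivity
    rw [hδ]; linarith
  have hδa : δ < 2 - ‖p + h0 • p‖ := by
    have h1 : ‖p + h0 • p‖ ≤ 2 - c ^ 2 / 4 := by
      apply abs_le_of_sq_le_sq' _ (by linarith) |>.2
      rw [hadd]
      nlinarith [sq_nonneg (c ^ 2)]
    have : 0 < c ^ 2 := by positivity
    rw [hδ]; linarith
  obtain ⟨hu0, hv0, huc, hvc, hub, hvb, htau, htau01, hun, hvn, hPXc, hPYc, hPX1, hPY5, hPXa, hPXb,
    hPYa, hPYb⟩ := hMAPS V p hp
  have hp5 : ‖p‖ < 5 := by rw [hp]; norm_num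
  let y : OrbitConf H V 1 :=
    ⟨fun _ => r • p, fun i j hij => absurd (Subsingleton.elim i j) hij⟩
  have hy0 : y.1 0 = r • p := rfl
  have hsm : ∀ k : Fin 1 → H, k • y = y → k = 1 := by
    intro k hk
    funext i
    have h1 : k i • (r • p) = r • p :=
      congrArg (fun c : OrbitConf H V 1 => c.1 i) hk
    obtain ⟨h', hh', hh''⟩ := rel_stab hL hr hdisc (hr5 p hp5) (hr5 p hp5) h1.symm
    by_contra hki
    have h2 : h' ≠ 1 := fun e => hki (by rw [← hh', e]; rfl)
    have h3 := hF h' h2 p hh''.symm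
    rw [h3, norm_zero] at hp
    exact zero_ne_one hp
  -- the sphere
  have hfinU : Module.finrank ℝ (UU p) = Module.finrank ℝ V - 1 := by
    have h1 : Module.finrank ℝ (ℝ ∙ p) + Module.finrank ℝ (UU p) = Module.finrank ℝ V :=
      Submodule.finrank_add_finrank_orthogonal (K := (ℝ ∙ p))
    have h2 : Module.finrank ℝ (ℝ ∙ p) = 1 := finrank_span_singleton (by
      intro h; rw [h, norm_zero] at hp; exact zero_ne_one hp)
    omega
  obtain ⟨N, hN⟩ : ∃ N, Module.finrank ℝ (UU p × UU p) = N + 1 := by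
    refine ⟨2 * (Module.finrank ℝ V - 1) - 1, ?_⟩
    rw [Module.finrank_prod, hfinU]
    omega
  have hN1 : 1 ≤ N := by
    rw [Module.finrank_prod, hfinU] at hN
    omega
  obtain ⟨κ, hκb, hκ⟩ := hSPH (UU p × UU p) N hN1 hN
  -- the map into the total space
  have hav : ∀ z : UU p × UU p, ‖z‖ ≤ 1 → ∀ h : H₀, PY δ p z ≠ h • PX p z := by
    intro z hz h
    have hz2 : ‖z.2‖ ≤ 1 := (norm_snd_le z).trans hz
    obtain ⟨t0, t1⟩ := htau01 z.2 hz2
    exact hAV H₀ V hV c δ hc hc2 hgap hδ0 hδ50 _ _ p (tau z.2) (hun z.1) (hvn z.2) hp t0 t1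
      (htau z.2) h
  have hPX5 : ∀ z : UU p × UU p, ‖z‖ ≤ 1 → ‖PX p z‖ < 5 := fun z hz =>
    lt_of_le_of_lt (hPX1 z hz) (by norm_num)
  have hPY5' : ∀ z : UU p × UU p, ‖z‖ ≤ 1 → ‖PY δ p z‖ < 5 := fun z hz =>
    hPY5 δ hδ0 hδ1 z hz
  have hball : ∀ z : Metric.closedBall (0 : UU p × UU p) 1, ‖z.1‖ ≤ 1 := fun z =>
    mem_closedBall_zero_iff.1 z.2
  have hsph : ∀ z : Metric.sphere (0 : UU p × UU p) 1, ‖z.1‖ = 1 := fun z =>
    mem_sphere_zero_iff_norm.1 z.2
  have hok : ∀ z : UU p × UU p, ‖z‖ ≤ 1 → ∀ h : H, r • PY δ p z ≠ h • (r • PX p z) := by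
    intro z hz h e
    obtain ⟨h', -, he⟩ := rel_stab hL hr hdisc (hr5 _ (hPX5 z hz)) (hr5 _ (hPY5' z hz)) e
    exact hav z hz h' he
  let Φ : C(Metric.closedBall (0 : UU p × UU p) 1, OrbitConf H V 2) :=
    { toFun := fun z => OrbitConf.snoc
        (⟨fun _ => r • PX p z.1, fun i j hij => absurd (Subsingleton.elim i j) hij⟩ :
          OrbitConf H V 1)
        ⟨r • PY δ p z.1, fun _ h => hok z.1 (hball z) h⟩
      continuous_toFun := by
        apply Continuous.subtype_mk
        exact Continuous.finSnoc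
          (continuous_pi fun _ => (hPXc.comp continuous_subtype_val).const_smul r)
          (((hPYc δ).comp continuous_subtype_val).const_smul r) }
  have hΦ : ∀ z, (Φ z).1 = Fin.snoc (fun _ : Fin 1 => r • PX p z.1) (r • PY δ p z.1) :=
    fun z => rfl
  have hcase : ∀ z : UU p × UU p, ‖z‖ = 1 → ‖z.1‖ = 1 ∨ ‖z.2‖ = 1 := by
    intro z hz
    rw [Prod.norm_def] at hz
    rcases max_choice ‖z.1‖ ‖z.2‖ with h | h
    · left; rw [← h]; exact hz
    · right; rw [← h]; exact hz
  have hPXs : ∀ z : UU p × UU p, ‖z‖ = 1 → PX p z = p := by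
    intro z hz
    rcases hcase z hz with h | h
    · exact hPXa z h
    · exact hPXb z h
  let W : C(Metric.sphere (0 : UU p × UU p) 1, Punctured H y) :=
    { toFun := fun z => ⟨r • PY δ p z.1, by
        intro i h
        have h1 := hok z.1 (hsph z).le h
        rwa [hPXs z.1 (hsph z)] at h1⟩
      continuous_toFun := by
        apply Continuous.subtype_mk
        exact ((hPYc δ).comp continuous_subtype_val).const_smul r }
  have hW : ∀ z, (W z).1 = r • PY δ p z.1 := fun z => rfl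
  have hnull : FreelyNull ((snocMap y).comp (W.comp κ)) := by
    refine (hκ _ ((snocMap y).comp W)).2 ⟨Φ, ?_⟩
    intro z
    apply Subtype.ext
    rw [hΦ]
    change (Fin.snoc (fun _ : Fin 1 => r • PX p z.1) (r • PY δ p z.1) : Fin 2 → V) =
      Fin.snoc (fun _ : Fin 1 => r • p) (r • PY δ p z.1)
    rw [hPXs z.1 (hsph z)]
  have hWκ : ConstBd (W.comp κ) := fun x hx x' hx' => congrArg W (hκb x hx x' hx')
  have hfn := hINJ H E V hE hL.continuous_smul hQ y hsm N hN1 (W.comp κ) hWκ hnull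
  obtain ⟨Ψ, hΨ⟩ := (hκ _ W).1 hfn
  have hΨs : ∀ z : Metric.closedBall (0 : UU p × UU p) 1, ‖z.1‖ = 1 →
      r⁻¹ • (Ψ z).1 = PY δ p z.1 := by
    intro z hz
    have := hΨ ⟨z.1, mem_sphere_zero_iff_norm.2 hz⟩
    have h2 : (Ψ z).1 = r • PY δ p z.1 := by
      rw [← hW ⟨z.1, mem_sphere_zero_iff_norm.2 hz⟩, ← this]
    rw [h2, smul_smul, inv_mul_cancel₀ hr.ne', one_smul]
  have hone : ∀ z : Metric.closedBall (0 : UU p × UU p) 1, ‖z.1.1‖ = 1 ∨ ‖z.1.2‖ = 1 →
      ‖z.1‖ = 1 := by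
    intro z h
    apply le_antisymm (hball z)
    rcases h with h | h
    · exact h.symm.le.trans (norm_fst_le z.1)
    · exact h.symm.le.trans (norm_snd_le z.1)
  have hback : ∀ x x' : V, r⁻¹ • x = x' → x = r • x' := by
    intro x x' e
    rw [← e, smul_smul, mul_inv_cancel₀ hr.ne', one_smul]
  refine hNO V p (h0 • p) δ hd hp hp' hδ0 hδi hδa hδ1
    ⟨fun z => r⁻¹ • (Ψ z).1, (continuous_subtype_val.comp Ψ.continuous).const_smul _⟩ ?_ ?_ ?_ ?_
  · intro z h
    apply (Ψ z).2 0 1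
    rw [one_smul, hy0]
    exact hback _ _ h
  · intro z h
    apply (Ψ z).2 0 h0.1
    rw [hy0]
    have h3 : h0.1 • (r • p) = r • (h0 • p) := hL.smul_smul h0.1 hh10 r p
    rw [h3]
    exact hback _ _ h
  · intro z hz
    change r⁻¹ • (Ψ z).1 = _
    rw [hΨs z (hone z (Or.inl hz)), hPYa δ z.1 hz]
  · intro z hz
    change r⁻¹ • (Ψ z).1 = _
    rw [hΨs z (hone z (Or.inr hz)), hPYb δ z.1 hz]

theorem mainnon_of (hNON : NONISO.{u, w}) : MAINNON.{u, v, w} := by
  intro H _ V _ _ _ _ E _ _ hL hs hE m hQ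
  have hfin := finite_stab hL
  have hV := orth_stab hL
  set H₀ := MulAction.stabilizer H (0 : V) with hH₀
  have hs₀ : ∃ h : H₀, h ≠ 1 ∧ ∃ v : V, v ≠ 0 ∧ h • v = v := by
    obtain ⟨h, hh, h0, x, hx, hhx⟩ := hs
    exact ⟨⟨h, MulAction.mem_stabilizer_iff.2 h0⟩, fun e => hh (congrArg Subtype.val e), x, hx, hhx⟩
  obtain ⟨N, X, Y, k, g, hN, hg, hgst, hX5, hY5, hXY, hXb, hYb, hXst, hdet⟩ := hNON H₀ V hV hs₀
  obtain ⟨R, hR, hdisc⟩ := hL.discrete
  set r : ℝ := R / (10 * (m : ℝ) + 10) with hrdef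
  have hm0 : (0 : ℝ) ≤ m := Nat.cast_nonneg m
  have hr : 0 < r := by positivity
  have hrR : ∀ x : V, ‖x‖ < 10 * (m : ℝ) + 10 → r * ‖x‖ < R := by
    intro x hx
    have h1 : r * ‖x‖ < r * (10 * (m : ℝ) + 10) := mul_lt_mul_of_pos_left hx hr
    have h2 : r * (10 * (m : ℝ) + 10) = R := by
      rw [hrdef]; field_simp
    linarith
  have hpts : ∀ (A : V), ‖A‖ < 5 → ∀ i : Fin (m + 1), ‖pts m g A i‖ < 10 * (m : ℝ) + 10 := by
    intro A hA i
    by_cases hi : (i : ℕ) = 0
    · have : pts m g A i = A := by unfold pts; rw [if_pos hi]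
      rw [this]; linarith
    · rw [(norm_pts hg hi).1]
      have : ((i : ℕ) : ℝ) ≤ m := by exact_mod_cast Nat.lt_succ_iff.1 i.2
      linarith
  have hfull : ∀ (A B : V) (hA : ‖A‖ < 5) (hB : ‖B‖ < 5) (hAB : ∀ h : H₀, B ≠ h • A),
      ∀ i, r * ‖(fullConf hV m hg hA hB hAB).1 i‖ < R := by
    intro A B hA hB hAB i
    apply hrR
    rw [fullConf_val]
    refine Fin.lastCases ?_ (fun i => ?_) i
    · rw [Fin.snoc_last]; linarith
    · rw [Fin.snoc_castSucc]; exact hpts A hA i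
  have hbase : ∀ (A : V) (hA : ‖A‖ < 5), ∀ i, r * ‖(baseConf hV m hg hA).1 i‖ < R := by
    intro A hA i
    exact hrR _ (hpts A hA i)
  -- the spheroid
  let s : C(Fin N → I, OrbitConf H V (m + 2)) :=
    { toFun := fun x => scaleConf hL hr hdisc (fullConf hV m hg (hX5 x) (hY5 x) (hXY x))
        (hfull _ _ (hX5 x) (hY5 x) (hXY x))
      continuous_toFun := by
        apply Continuous.subtype_mk
        have h1 : Continuous fun x : Fin N → I =>
            (Fin.snoc (pts m g (X x)) (Y x) : Fin (m + 2) → V) :=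
          Continuous.finSnoc (continuous_pts m g X.continuous) Y.continuous
        exact continuous_pi fun i => ((continuous_apply i).comp h1).const_smul r }
  have hsval : ∀ x i, (s x).1 i = r • (Fin.snoc (pts m g (X x)) (Y x) : Fin (m + 2) → V) i :=
    fun x i => rfl
  have hs0 : ∀ x, (s x).1 0 = r • X x := by
    intro x
    have h0 : (0 : Fin (m + 2)) = (0 : Fin (m + 1)).castSucc := rfl
    rw [hsval, h0, Fin.snoc_castSucc, pts_zero]
  have hslast : ∀ x, (s x).1 (Fin.last (m + 1)) = r • Y x := by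
    intro x
    rw [hsval, Fin.snoc_last]
  have hsinit : ∀ x, (s x).init =
      scaleConf hL hr hdisc (baseConf hV m hg (hX5 x)) (hbase _ (hX5 x)) := by
    intro x
    apply Subtype.ext
    funext i
    change (s x).1 i.castSucc = r • pts m g (X x) i
    rw [hsval, Fin.snoc_castSucc]
  have hb : (0 : Fin N → I) ∈ Cube.boundary (Fin N) := ⟨⟨0, hN⟩, Or.inl rfl⟩
  let x₀ : OrbitConf H V (m + 2) := s 0
  have hsb : ∀ x ∈ Cube.boundary (Fin N), s x = x₀ := by
    intro x hx
    apply Subtype.ext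
    funext i
    change (s x).1 i = (s 0).1 i
    rw [hsval, hsval, hXb x hx 0 hb, hYb x hx 0 hb]
  have hx₀i : x₀.init = scaleConf hL hr hdisc (baseConf hV m hg (hX5 0)) (hbase _ (hX5 0)) :=
    hsinit 0
  have hsm : ∀ g' : Fin (m + 1) → H, g' • x₀.init = x₀.init → g' = 1 := by
    intro g' hg'
    rw [hx₀i] at hg'
    funext i
    have h1 : g' i • (r • pts m g (X 0) i) = r • pts m g (X 0) i :=
      congrArg (fun c : OrbitConf H V (m + 1) => c.1 i) hg'
    obtain ⟨h', hh', hh''⟩ := rel_stab hL hr hdisc (hrR _ (hpts _ (hX5 0) i))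
      (hrR _ (hpts _ (hX5 0) i)) h1.symm
    have h2 : h' = 1 := by
      by_cases hi : (i : ℕ) = 0
      · have h3 : pts m g (X 0) i = X 0 := by unfold pts; rw [if_pos hi]
        rw [h3] at hh''
        exact hXst h' hh''.symm
      · have h3 : pts m g (X 0) i = (10 * ((i : ℕ) : ℝ)) • g := by unfold pts; rw [if_neg hi]
        rw [h3, hV.smul_smul] at hh''
        have h4 : (10 * ((i : ℕ) : ℝ)) ≠ 0 := by
          have : ((i : ℕ) : ℝ) ≠ 0 := by exact_mod_cast hi
          positivity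
        exact hgst h' (smul_right_injective V h4 hh''.symm)
    rw [← hh', h2]
    rfl
  have hnull : (ContinuousMap.comp ⟨OrbitConf.init, continuous_init⟩ s).HomotopicRel
      (ContinuousMap.const _ x₀.init) (Cube.boundary (Fin N)) := by
    have hmid : ∀ (t : I) (x : Fin N → I), ‖(1 - (t : ℝ)) • X x + (t : ℝ) • X 0‖ < 5 := by
      intro t x
      have h1 : X x ∈ Metric.ball (0 : V) 5 := by rw [mem_ball_zero_iff]; exact hX5 x
      have h2 : X 0 ∈ Metric.ball (0 : V) 5 := by rw [mem_ball_zero_iff]; exact hX5 0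
      have h3 := (convex_ball (0 : V) 5) h1 h2 (sub_nonneg.2 t.2.2) t.2.1 (by ring)
      rwa [mem_ball_zero_iff] at h3
    let Hm : C(I × (Fin N → I), OrbitConf H V (m + 1)) :=
      { toFun := fun a => scaleConf hL hr hdisc (baseConf hV m hg (hmid a.1 a.2))
          (hbase _ (hmid a.1 a.2))
        continuous_toFun := by
          apply Continuous.subtype_mk
          have h1 : Continuous fun a : I × (Fin N → I) =>
              pts m g ((1 - (a.1 : ℝ)) • X a.2 + (a.1 : ℝ) • X 0) := by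
            apply continuous_pts
            have h2 : Continuous fun a : I × (Fin N → I) => (a.1 : ℝ) :=
              continuous_subtype_val.comp continuous_fst
            exact ((continuous_const.sub h2).smul (X.continuous.comp continuous_snd)).add
              (h2.smul continuous_const)
          exact continuous_pi fun i => ((continuous_apply i).comp h1).const_smul r }
    have hHm : ∀ a i, (Hm a).1 i =
        r • pts m g ((1 - (a.1 : ℝ)) • X a.2 + (a.1 : ℝ) • X 0) i := fun a i => rfl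
    refine ⟨⟨⟨Hm, ?_, ?_⟩, ?_⟩⟩
    · intro x
      change Hm (0, x) = (s x).init
      rw [hsinit]
      apply Subtype.ext
      funext i
      rw [hHm]
      change _ = r • pts m g (X x) i
      simp
    · intro x
      change Hm (1, x) = x₀.init
      rw [hx₀i]
      apply Subtype.ext
      funext i
      rw [hHm]
      change _ = r • pts m g (X 0) i
      simp
    · intro t x hx
      change Hm (t, x) = (s x).init
      rw [hsinit]
      apply Subtype.ext
      funext i
      rw [hHm]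
      change r • pts m g ((1 - (t : ℝ)) • X x + (t : ℝ) • X 0) i = r • pts m g (X x) i
      rw [hXb x hx 0 hb, ← add_smul]
      simp
  obtain ⟨l, hlb, K, hK0, hK1, hKb⟩ :=
    exists_fiber_loop hE hL.continuous_smul hQ x₀ hsm hN s hsb hnull
  have hv : Continuous fun a : I × (Fin N → I) => (K a).1 :=
    continuous_subtype_val.comp K.continuous
  let P : C(I × (Fin N → I), V) := ⟨fun a => r⁻¹ • (K a).1 0,
    ((continuous_apply (0 : Fin (m + 2))).comp hv).const_smul _⟩
  let Q : C(I × (Fin N → I), V) := ⟨fun a => r⁻¹ • (K a).1 (Fin.last (m + 1)),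
    ((continuous_apply (Fin.last (m + 1))).comp hv).const_smul _⟩
  have hP : ∀ a, P a = r⁻¹ • (K a).1 0 := fun a => rfl
  have hQ' : ∀ a, Q a = r⁻¹ • (K a).1 (Fin.last (m + 1)) := fun a => rfl
  have hri : r⁻¹ ≠ 0 := inv_ne_zero hr.ne'
  have hcan : ∀ x : V, r⁻¹ • (r • x) = x := fun x => by
    rw [smul_smul, inv_mul_cancel₀ hr.ne', one_smul]
  refine hdet P Q ?_ ?_ ?_ ?_ ?_ ?_
  · intro a e
    rw [hP, hQ'] at e
    have h1 := smul_right_injective V hri e
    have h2 := (K a).2 (Fin.last (m + 1)) 0 (by simp [Fin.ext_iff]) 1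
    rw [one_smul] at h2
    exact h2 h1
  · intro a e
    rw [hP, hQ'] at e
    have h0 : k.1 • (0 : V) = 0 := MulAction.mem_stabilizer_iff.1 k.2
    have h3 : k • (r⁻¹ • (K a).1 0) = r⁻¹ • (k.1 • (K a).1 0) :=
      hL.smul_smul k.1 h0 r⁻¹ ((K a).1 0)
    rw [h3] at e
    have h1 := smul_right_injective V hri e
    exact (K a).2 (Fin.last (m + 1)) 0 (by simp [Fin.ext_iff]) k.1 h1
  · intro x
    rw [hP, hK0, hs0, hcan]
  · intro x
    rw [hQ', hK0, hslast, hcan]
  · intro x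
    rw [hP, hK1]
    have h0 : (x₀.init.snoc (l x)).1 0 = r • X 0 := by
      have h0 : (0 : Fin (m + 2)) = (0 : Fin (m + 1)).castSucc := rfl
      change (Fin.snoc x₀.init.1 (l x).1 : Fin (m + 2) → V) 0 = r • X 0
      rw [h0, Fin.snoc_castSucc]
      change x₀.1 (Fin.castSucc 0) = _
      exact hs0 0
    rw [h0, hcan]
  · intro t x hx x' hx'
    rw [hP, hP, hQ', hQ', hKb t x hx, hKb t x' hx']
    exact ⟨rfl, rfl⟩

end

end Pool.Agent.Helper33.Iso
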