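import Pool.Agent.Helper33.Iso.Defs2

/-!
# Universal spaces for all groups: goal
-/

set_option autoImplicit false

open Topology unitInterval
open Pool.Agent.Helper72.Orb

namespace Pool.Agent.Helper33.Iso

universe u

/-- **UNIV.**  Every group has a universal space (`exists_universalSpace` in
`Helper72/Orb/Universal.lean` is the case of a finite group).  Proof.  Repeat that file with
`H → ℝ` (product topology) replaced by the bounded functions on the discrete space `H` with the
SUP NORM (e.g. `BoundedContinuousFunction` on `H` with the discrete topology, or bounded functions with
the topology of uniform convergence), and the retraction to the cone replaced by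
`retr z h = max 0 (z h - sup {z k : k ≠ h})` (with the value `max 0 (z h)` if `H` has one element; or
`sup` of `z k` over `k ≠ h` together with `0`, for `z ≥ 0` the same).  It is `2`-Lipschitz for the sup norm,
for `z ≥ 0` at most one value of `retr z` is nonzero, and `retr z = z` for `z` in the cone.  `E` = sequences
`ℕ →` (cone) which are not identically zero, product topology over `ℕ`; contraction: identity ~ shift
(`mix`), shift ~ constant (`mix'`), unchanged.  `disjoint`: for `x n k ≠ 0` the open set
`{y | y n k ≠ 0}`, unchanged.  Another construction is fine too (for instance the metric cone
described by coordinates and total mass). -/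
def UNIV : Prop := ∀ (H : Type u) [Group H],
  ∃ (E : Type u) (_ : TopologicalSpace E) (_ : MulAction H E), IsUniversalSpace H E

end Pool.Agent.Helper33.Iso
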