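import Pool.Agent.Helper33.Iso.Goals

/-!
# Elementary facts on the explicit maps
-/

set_option autoImplicit false

open Topology unitInterval RealInnerProductSpace
open Pool.Agent.Helper72.Orb

namespace Pool.Agent.Helper33.Iso

universe u v w

theorem norm_nrm {V : Type w} [NormedAddCommGroup V] [InnerProductSpace ℝ V] {x : V}
    (hx : x ≠ 0) : ‖nrm x‖ = 1 := by
  unfold nrm
  rw [norm_smul, norm_inv, norm_norm, inv_mul_cancel₀ (norm_ne_zero_iff.2 hx)]

theorem gMAPS : MAPS.{w} := by
  intro V _ _ p hp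
  have hin : ∀ ξ : UU p, ⟪p, (ξ : V)⟫ = 0 := fun ξ =>
    Submodule.mem_orthogonal_singleton_iff_inner_right.1 ξ.2
  have hpp : ⟪p, p⟫ = 1 := by rw [real_inner_self_eq_norm_sq, hp]; norm_num
  have hnp : nrm p = p := by unfold nrm; rw [hp, inv_one, one_smul]
  have hnnp : nrm (-p) = -p := by unfold nrm; rw [norm_neg, hp, inv_one, one_smul]
  have hu0 : ∀ ξ : UU p, uu p ξ ≠ 0 := by
    intro ξ h
    have h1 : ⟪p, uu p ξ⟫ = 2 * ‖ξ‖ - 1 := by
      unfold uu
      rw [inner_add_right, inner_smul_right, inner_smul_right, hin, hpp]; ring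
    rw [h, inner_zero_right] at h1
    have h2 : ‖ξ‖ = 1 / 2 := by linarith
    have h3 : (ξ : V) = 0 := by
      have h4 := h
      unfold uu at h4
      rw [h2] at h4
      norm_num at h4
      exact_mod_cast h4
    have h5 : ‖ξ‖ = 0 := by rw [show ξ = 0 from Subtype.ext h3, norm_zero]
    linarith
  have hv0 : ∀ η : UU p, vv p η ≠ 0 := by
    intro η h
    have h1 : ⟪p, vv p η⟫ = max (1 - 4 * ‖η‖) (-1) := by
      unfold vv
      rw [inner_add_right, inner_smul_right, inner_smul_right, hin, hpp]; ring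
    rw [h, inner_zero_right] at h1
    have h2 : ‖η‖ = 1 / 4 := by
      rcases max_choice (1 - 4 * ‖η‖) (-1) with h3 | h3 <;> rw [h3] at h1 <;> linarith
    have h3 : (η : V) = 0 := by
      have h4 := h
      unfold vv at h4
      rw [h2] at h4
      norm_num at h4
      exact_mod_cast h4
    have h5 : ‖η‖ = 0 := by rw [show η = 0 from Subtype.ext h3, norm_zero]
    linarith
  have huc : Continuous (uu p) := by unfold uu; fun_prop
  have hvc : Continuous (vv p) := by unfold vv; fun_prop
  have hub : ∀ ξ : UU p, ‖ξ‖ = 1 → uu p ξ = p ∧ nrm (uu p ξ) = p := by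
    intro ξ hξ
    have h : uu p ξ = p := by
      unfold uu
      rw [hξ]; norm_num
    exact ⟨h, by rw [h, hnp]⟩
  have hvb' : ∀ η : UU p, 1 / 2 ≤ ‖η‖ → vv p η = -p := by
    intro η hη
    unfold vv
    rw [max_eq_right (by linarith), max_eq_right (by linarith)]
    simp
  have hvb : ∀ η : UU p, ‖η‖ = 1 → tau η = 1 ∧ vv p η = -p ∧ nrm (vv p η) = -p := by
    intro η hη
    have h := hvb' η (by rw [hη]; norm_num)
    refine ⟨?_, h, by rw [h, hnnp]⟩
    unfold tau
    rw [hη, max_eq_left] <;> norm_num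
  have htau : ∀ η : UU p, tau η = 0 ∨ nrm (vv p η) = -p := by
    intro η
    rcases le_total ‖η‖ (1 / 2) with h | h
    · left
      unfold tau
      exact max_eq_right (by linarith)
    · right
      rw [hvb' η h, hnnp]
  have htau01 : ∀ η : UU p, ‖η‖ ≤ 1 → 0 ≤ tau η ∧ tau η ≤ 1 := by
    intro η hη
    unfold tau
    exact ⟨le_max_right _ _, max_le (by linarith) zero_le_one⟩
  have hun : ∀ ξ : UU p, ‖nrm (uu p ξ)‖ = 1 := fun ξ => norm_nrm (hu0 ξ)
  have hvn : ∀ η : UU p, ‖nrm (vv p η)‖ = 1 := fun η => norm_nrm (hv0 η)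
  have hunc : Continuous fun ξ : UU p => nrm (uu p ξ) := by
    unfold nrm
    exact (huc.norm.inv₀ fun ξ => norm_ne_zero_iff.2 (hu0 ξ)).smul huc
  have hvnc : Continuous fun η : UU p => nrm (vv p η) := by
    unfold nrm
    exact (hvc.norm.inv₀ fun η => norm_ne_zero_iff.2 (hv0 η)).smul hvc
  have htc : Continuous fun η : UU p => tau η := by
    unfold tau
    exact ((continuous_const.mul continuous_norm).sub continuous_const).max continuous_const
  have hPXc : Continuous (PX p) := by
    unfold PX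
    exact ((continuous_const.sub (htc.comp continuous_snd)).smul (hunc.comp continuous_fst)).add
      ((htc.comp continuous_snd).smul continuous_const)
  have hPYc : ∀ δ : ℝ, Continuous (PY δ p) := by
    intro δ
    unfold PY
    exact (hPXc.add (((htc.comp continuous_snd).mul continuous_const).smul
      ((hunc.comp continuous_fst).sub continuous_const))).add
      ((hvnc.comp continuous_snd).const_smul δ)
  have hPX1 : ∀ z : UU p × UU p, ‖z‖ ≤ 1 → ‖PX p z‖ ≤ 1 := by
    intro z hz
    obtain ⟨t0, t1⟩ := htau01 z.2 ((norm_snd_le z).trans hz)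
    unfold PX
    refine (norm_add_le _ _).trans ?_
    rw [norm_smul, norm_smul, hun, hp, Real.norm_eq_abs, Real.norm_eq_abs,
      abs_of_nonneg (by linarith), abs_of_nonneg t0]
    linarith
  refine ⟨hu0, hv0, huc, hvc, hub, hvb, htau, htau01, hun, hvn, hPXc, hPYc, hPX1, ?_, ?_, ?_, ?_, ?_⟩
  · intro δ hδ hδ1 z hz
    obtain ⟨t0, t1⟩ := htau01 z.2 ((norm_snd_le z).trans hz)
    have h1 : ‖nrm (uu p z.1) - p‖ ≤ 2 := by
      refine (norm_sub_le _ _).trans ?_
      rw [hun, hp]; norm_num
    have h2 : ‖(tau z.2 * (2 - δ)) • (nrm (uu p z.1) - p)‖ ≤ (2 - δ) * 2 := by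
      rw [norm_smul, Real.norm_eq_abs, abs_of_nonneg (mul_nonneg t0 (by linarith))]
      have h3 : tau z.2 * (2 - δ) ≤ 2 - δ := by nlinarith
      exact mul_le_mul h3 h1 (norm_nonneg _) (by linarith)
    have h3 : ‖δ • nrm (vv p z.2)‖ = δ := by
      rw [norm_smul, hvn, Real.norm_eq_abs, abs_of_pos hδ, mul_one]
    unfold PY
    have h4 := norm_add_le (PX p z + (tau z.2 * (2 - δ)) • (nrm (uu p z.1) - p))
      (δ • nrm (vv p z.2))
    have h5 := norm_add_le (PX p z) ((tau z.2 * (2 - δ)) • (nrm (uu p z.1) - p))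
    have h6 := hPX1 z hz
    linarith
  · intro z hz
    unfold PX
    rw [(hub z.1 hz).2, ← add_smul]
    simp
  · intro z hz
    unfold PX
    rw [(hvb z.2 hz).1]
    simp
  · intro δ z hz
    unfold PY PX
    rw [(hub z.1 hz).2, ← add_smul]
    simp
  · intro δ z hz
    unfold PY PX
    rw [(hvb z.2 hz).1, (hvb z.2 hz).2.2]
    simp only [sub_self, zero_smul, one_smul, one_mul, zero_add]
    rw [smul_sub, smul_neg]
    have : (2 - δ) • p = (2 : ℝ) • p - δ • p := sub_smul _ _ _
    rw [this, two_smul]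
    abel

end Pool.Agent.Helper33.Iso
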