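import Pool.Agent.Helper33.Iso.Goals

/-!
# The explicit map into the fibre does not extend
-/

set_option autoImplicit false

open Topology unitInterval RealInnerProductSpace
open Pool.Agent.Helper72.Orb

namespace Pool.Agent.Helper33.Iso

universe u v w

theorem gNOPSI' (hMAPS : MAPS.{w}) (hQF : QFACTS.{w}) (hSIG : SIGMA.{w}) (hTH : THETA.{w})
    (hEH : EH.{w, w}) : NOPSI.{w} := by
  intro V _ _ _ p p' δ hd hp hp' hδ hδi hδa hδ1 Ψ hΨp hΨp' hA hB
  obtain ⟨hu0, hv0, huc, hvc, hub, hvb, -⟩ := hMAPS V p hp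
  obtain ⟨hQc, hQ0, hQe, hQv⟩ := hQF V p hp
  have hpp : ⟪p, p⟫ = 1 := by rw [real_inner_self_eq_norm_sq, hp]; norm_num
  have hfinU : Module.finrank ℝ (UU p) = Module.finrank ℝ V - 1 := by
    have h1 : Module.finrank ℝ (ℝ ∙ p) + Module.finrank ℝ (UU p) = Module.finrank ℝ V :=
      Submodule.finrank_add_finrank_orthogonal (K := (ℝ ∙ p))
    have h2 : Module.finrank ℝ (ℝ ∙ p) = 1 := finrank_span_singleton (by
      intro h; rw [h, norm_zero] at hp; exact zero_ne_one hp)
    omega
  have hfinZ : Module.finrank ℝ ((UU p × UU p) × ℝ) = 2 * (Module.finrank ℝ V - 1) + 1 := by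
    rw [Module.finrank_prod, Module.finrank_prod, hfinU, Module.finrank_self]
    omega
  have hnt : Nontrivial (UU p) := Module.nontrivial_of_finrank_pos (R := ℝ) (by omega)
  obtain ⟨ξ₁, hξ₁⟩ : ∃ ξ : UU p, ‖ξ‖ = 1 := exists_norm_eq (UU p) zero_le_one
  have hsph : ∀ z : Metric.sphere (0 : (UU p × UU p) × ℝ) 1, ‖z.1‖ = 1 := fun z =>
    mem_sphere_zero_iff_norm.1 z.2
  have hs1 : ∀ z : Metric.sphere (0 : (UU p × UU p) × ℝ) 1, |z.1.2| ≤ 1 := fun z =>
    (norm_snd_le z.1).trans (hsph z).le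
  let c : Metric.sphere (0 : (UU p × UU p) × ℝ) 1 → Metric.closedBall (0 : UU p × UU p) 1 :=
    fun z => ⟨z.1.1, mem_closedBall_zero_iff.2 ((norm_fst_le z.1).trans (hsph z).le)⟩
  have hc : Continuous c := (continuous_fst.comp continuous_subtype_val).subtype_mk _
  have hc1 : ∀ z, (c z).1 = z.1.1 := fun z => rfl
  have hsig := fun z : Metric.sphere (0 : (UU p × UU p) × ℝ) 1 =>
    hSIG V p p' (Ψ (c z)) δ z.1.2 z.1.1.1 z.1.1.2 hp hp' hδ hδi hδa hδ1 (hsph z) (hΨp (c z))
      (hΨp' (c z)) (fun h => hA (c z) h) (fun h => hB (c z) h)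
  have hsc : Continuous fun z : Metric.sphere (0 : (UU p × UU p) × ℝ) 1 => max z.1.2 0 :=
    (continuous_snd.comp continuous_subtype_val).max continuous_const
  have h11 : Continuous fun z : Metric.sphere (0 : (UU p × UU p) × ℝ) 1 => z.1.1.1 :=
    continuous_fst.comp (continuous_fst.comp continuous_subtype_val)
  have h12 : Continuous fun z : Metric.sphere (0 : (UU p × UU p) × ℝ) 1 => z.1.1.2 :=
    continuous_snd.comp (continuous_fst.comp continuous_subtype_val)
  let f : C(Metric.sphere (0 : (UU p × UU p) × ℝ) 1, {x : V // x ≠ 0}) :=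
    { toFun := fun z => ⟨(1 - max z.1.2 0) • uu p z.1.1.1 + max z.1.2 0 • (Ψ (c z) - p'),
        (hsig z).1⟩
      continuous_toFun := by
        apply Continuous.subtype_mk
        exact ((continuous_const.sub hsc).smul (huc.comp h11)).add
          (hsc.smul ((Ψ.continuous.comp hc).sub continuous_const)) }
  let g : C(Metric.sphere (0 : (UU p × UU p) × ℝ) 1, {x : V // x ≠ 0}) :=
    { toFun := fun z => ⟨(1 - max z.1.2 0) • vv p z.1.1.2 + max z.1.2 0 • (Ψ (c z) - p),
        (hsig z).2.1⟩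
      continuous_toFun := by
        apply Continuous.subtype_mk
        exact ((continuous_const.sub hsc).smul (hvc.comp h12)).add
          (hsc.smul ((Ψ.continuous.comp hc).sub continuous_const)) }
  have hf : ∀ z, (f z).1 = (1 - max z.1.2 0) • uu p z.1.1.1 + max z.1.2 0 • (Ψ (c z) - p') :=
    fun z => rfl
  have hg : ∀ z, (g z).1 = (1 - max z.1.2 0) • vv p z.1.1.2 + max z.1.2 0 • (Ψ (c z) - p) :=
    fun z => rfl
  let Q : C({x : V // x ≠ 0} × {x : V // x ≠ 0}, (UU p × UU p) × ℝ) :=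
    { toFun := fun w => QQ p (w.1.1, w.2.1)
      continuous_toFun := hQc.comp
        ((continuous_subtype_val.comp continuous_fst).prodMk
          (continuous_subtype_val.comp continuous_snd)) }
  have hQ : ∀ x y, Q (x, y) = QQ p (x.1, y.1) := fun x y => rfl
  let θ : C(Metric.sphere (0 : (UU p × UU p) × ℝ) 1, I) :=
    { toFun := fun z => ⟨min 1 (1 + z.1.2), by
        have := abs_le.1 (hs1 z)
        exact ⟨le_min zero_le_one (by linarith), min_le_left _ _⟩⟩
      continuous_toFun := by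
        apply Continuous.subtype_mk
        exact continuous_const.min
          (continuous_const.add (continuous_snd.comp continuous_subtype_val)) }
  have hθ : ∀ z, (θ z : ℝ) = min 1 (1 + z.1.2) := fun z => rfl
  let b : Metric.sphere (0 : (UU p × UU p) × ℝ) 1 := ⟨((ξ₁, ξ₁), 0), by
    rw [mem_sphere_zero_iff_norm, Prod.norm_def, Prod.norm_def]
    simp [hξ₁]⟩
  have hfb : (f b).1 = p := by
    rw [hf]
    change (1 - max (0 : ℝ) 0) • uu p ξ₁ + max (0 : ℝ) 0 • (Ψ (c b) - p') = p
    rw [max_self, (hub ξ₁ hξ₁).1]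
    simp
  have hgb : (g b).1 = -p := by
    rw [hg]
    change (1 - max (0 : ℝ) 0) • vv p ξ₁ + max (0 : ℝ) 0 • (Ψ (c b) - p) = -p
    rw [max_self, (hvb ξ₁ hξ₁).2.1]
    simp
  have hQsnd : ∀ x y : V, (QQ p (x, y)).2 = max ⟪p, x⟫ (-⟪p, y⟫) := fun x y => rfl
  obtain ⟨z, lam, hlam, hz⟩ := hEH ((UU p × UU p) × ℝ) (2 * (Module.finrank ℝ V - 1))
    (by omega) hfinZ _ _ b f g Q ((0, 1) : (UU p × UU p) × ℝ) θ
    (fun w => hQ0 _ _ w.1.2 w.2.2) (by
      intro x y hxy t h
      have h2 := congrArg Prod.snd h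
      rw [hQ] at h2
      simp only [Prod.snd_add, Prod.smul_snd, Prod.snd_zero, smul_eq_mul, hQsnd, mul_one] at h2
      have h3 : (1 : ℝ) ≤ max ⟪p, (x : V)⟫ (-⟪p, (y : V)⟫) := by
        rcases hxy with hx | hy
        · rw [hx, hfb, hpp]; exact le_max_left _ _
        · rw [hy, hgb, inner_neg_right, hpp, neg_neg]; exact le_max_right _ _
      have t0 := t.2.1
      have t1 := t.2.2
      nlinarith) (by
      intro z t h
      set μ : ℝ := (t : ℝ) * (θ z : ℝ) with hμ
      have hμ0 : 0 ≤ μ := mul_nonneg t.2.1 (θ z).2.1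
      have hμ1 : μ ≤ 1 := mul_le_one₀ t.2.2 (θ z).2.1 (θ z).2.2
      rw [hQ] at h
      by_cases h1 : μ = 1
      · rw [h1] at h
        have h2 := congrArg Prod.snd h
        simp at h2
      · have hpos : 0 < 1 - μ := by
          have := lt_of_le_of_ne hμ1 h1
          linarith
        have h2 : QQ p ((f z).1, (g z).1) =
            -((μ / (1 - μ)) • ((0, 1) : (UU p × UU p) × ℝ)) := by
          have h3 : (1 - μ)⁻¹ • ((1 - μ) • QQ p ((f z).1, (g z).1) +
              μ • ((0, 1) : (UU p × UU p) × ℝ)) = 0 := by rw [h, smul_zero]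
          rw [smul_add, smul_smul, smul_smul, inv_mul_cancel₀ hpos.ne', one_smul] at h3
          rw [eq_neg_of_add_eq_zero_left h3, div_eq_inv_mul]
        by_cases hs : -1 < z.1.2
        · obtain ⟨a, b', ha, hb', hx, hy⟩ := hQe _ _ (f z).2 (g z).2 _
            (div_nonneg hμ0 hpos.le) h2
          exact (hsig z).2.2 hs a b' ha hb' ⟨hx, hy⟩
        · have hθ0 : (θ z : ℝ) = 0 := by
            apply le_antisymm _ (θ z).2.1
            rw [hθ]
            exact (min_le_right _ _).trans (by linarith)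
          have hμz : μ = 0 := by rw [hμ, hθ0, mul_zero]
          rw [hμz] at h2
          apply hQ0 _ _ (f z).2 (g z).2
          rw [h2]
          simp)
  rw [hQ] at hz
  by_cases hs : 0 ≤ z.1.2
  · have hθ1 : (θ z : ℝ) = 1 := by
      rw [hθ]; exact min_eq_left (by linarith)
    rw [hθ1] at hz
    have h2 := congrArg Prod.snd hz
    simp only [sub_self, zero_smul, zero_add, Prod.smul_snd, Prod.snd_neg, smul_eq_mul,
      mul_one] at h2
    have := mul_nonneg hlam hs
    linarith
  · have hs' : z.1.2 < 0 := not_le.1 hs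
    have hθ1 : (θ z : ℝ) = 1 + z.1.2 := by
      rw [hθ]; exact min_eq_right (by linarith)
    have hmax : max z.1.2 (0 : ℝ) = 0 := max_eq_right hs'.le
    rw [hθ1, hf, hg, hmax] at hz
    simp only [sub_zero, one_smul, zero_smul, add_zero] at hz
    exact hTH V p z.1.2 lam z.1.1.1 z.1.1.2 hp (hsph z) hs' hlam hz

end Pool.Agent.Helper33.Iso
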