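import Pool.Agent.Helper33.Iso.Assembly
import Pool.Agent.Helper33.Iso.Assembly2
import Pool.Agent.Helper33.Iso.Goals3
import Pool.Agent.Helper66.Iso.COLLAR
import Pool.Agent.Helper9.Iso.FREEREL
import Pool.Agent.Helper26.Iso.LIFTBD
import Pool.Agent.Helper14.Iso.SURJ
import Pool.Agent.Helper15.Iso.SPHERE
import Pool.Agent.Helper13.Iso.EH
import Pool.Agent.Helper91.Iso.QFACTS
import Pool.Agent.Helper25.Iso.SIGMA
import Pool.Agent.Helper14.Iso.INJONE
import Pool.Agent.Helper4.Iso.PATHCONN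
import Pool.Agent.Helper45.Iso.GAP
import Pool.Agent.Helper24.Iso.INJFAR
import Pool.Agent.Helper8.Iso.INJ
import Pool.Agent.Helper64.Iso.NONISO
import Pool.Agent.Helper23.Iso.AVOID
import Pool.Agent.Helper72.Iso.THETA
import Pool.Agent.Helper33.Iso.Maps
import Pool.Agent.Helper33.Iso.Nopsi
import Pool.Agent.Helper66.Iso.TRIVB

/-!
# Isolated linear quotient orbifolds and orbifolds covered by a Euclidean space: the theorems
-/

set_option autoImplicit false

namespace Pool.Agent.Helper33.Iso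

universe u v w

theorem nopsi : NOPSI.{w} :=
  gNOPSI' gMAPS Pool.Agent.Helper91.Iso.gQFACTS
    (Pool.Agent.Helper25.Iso.gSIGMA gMAPS Pool.Agent.Helper91.Iso.gQFACTS)
    (Pool.Agent.Helper72.Iso.gTHETA gMAPS Pool.Agent.Helper91.Iso.gQFACTS)
    Pool.Agent.Helper13.Iso.gEH

theorem inj : INJ.{u, v, w} :=
  Pool.Agent.Helper8.Iso.gINJ Pool.Agent.Helper66.Iso.gCOLLAR Pool.Agent.Helper9.Iso.gFREEREL
    (Pool.Agent.Helper24.Iso.gINJFAR
      (Pool.Agent.Helper14.Iso.gSURJ Pool.Agent.Helper26.Iso.gLIFTBD))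

theorem main : MAIN.{u, v, w} :=
  main_of Pool.Agent.Helper4.Iso.gPATHCONN inj Pool.Agent.Helper15.Iso.gSPHERE
    Pool.Agent.Helper45.Iso.gGAP Pool.Agent.Helper23.Iso.gAVOID gMAPS nopsi

theorem injone : INJONE.{u, v, w} :=
  Pool.Agent.Helper14.Iso.gINJONE
    (Pool.Agent.Helper66.Iso.gTRIVB Pool.Agent.Helper26.Iso.gLIFTBD
      Pool.Agent.Helper9.Iso.gFREEREL) Pool.Agent.Helper9.Iso.gFREEREL

theorem mainiso : MAINISO.{u, v, w} :=
  mainiso_of injone Pool.Agent.Helper15.Iso.gSPHERE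
    Pool.Agent.Helper45.Iso.gGAP Pool.Agent.Helper23.Iso.gAVOID gMAPS nopsi

theorem mainnon : MAINNON.{u, v, w} := mainnon_of Pool.Agent.Helper64.Iso.gNONISO

end Pool.Agent.Helper33.Iso
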