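import Pool.Agent.Helper33.Iso.Goals

/-!
# Isolated linear quotient orbifolds: assembly
-/

set_option autoImplicit false

open Topology unitInterval RealInnerProductSpace
open Pool.Agent.Helper72.Orb

namespace Pool.Agent.Helper33.Iso

universe u v w

noncomputable section

theorem main_of (hPC : PATHCONN.{u, w}) (hINJ : INJ.{u, v, w}) (hSPH : SPHERE.{w, w})
    (hGAP : GAP.{u, w}) (hAV : AVOID.{u, w}) (hMAPS : MAPS.{w}) (hNO : NOPSI.{w}) :
    MAIN.{u, v, w} := by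
  intro H _ _ V _ _ _ _ E _ _ hV hF hne hd hE m hQ
  obtain ⟨h0, hh0⟩ := hne
  have hnt : Nontrivial V := Module.nontrivial_of_finrank_pos (R := ℝ) (by omega)
  obtain ⟨p, hp⟩ : ∃ p : V, ‖p‖ = 1 := exists_norm_eq V zero_le_one
  obtain ⟨c, hc, hc2, hgap⟩ := hGAP H V hV hF
  have hp' : ‖h0 • p‖ = 1 := by rw [hV.norm_smul, hp]
  set δ : ℝ := c ^ 2 / 100 with hδ
  have hδ0 : 0 < δ := by positivity
  have hcc : c ^ 2 ≤ 4 := by nlinarith
  have hδ50 : δ < c ^ 2 / 50 := by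
    have : 0 < c ^ 2 := by positivity
    rw [hδ]; linarith
  have hδ1 : δ < 1 := by rw [hδ]; linarith
  have hdist : c ≤ ‖h0 • p - p‖ := by
    have := hgap h0 hh0 p
    rwa [hp, mul_one] at this
  have hd2 : c ^ 2 ≤ ‖h0 • p - p‖ ^ 2 := by
    have := norm_nonneg (h0 • p - p)
    nlinarith
  have hsub : ‖h0 • p - p‖ ^ 2 = 2 - 2 * ⟪h0 • p, p⟫ := by
    rw [norm_sub_sq_real, hp', hp]; ring
  have hadd : ‖p + h0 • p‖ ^ 2 = 2 + 2 * ⟪h0 • p, p⟫ := by
    rw [norm_add_sq_real, hp', hp, real_inner_comm]; ring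
  have hδi : δ < 1 - ⟪h0 • p, p⟫ := by
    have : 0 < c ^ 2 := by positivity
    rw [hδ]; linarith
  have hδa : δ < 2 - ‖p + h0 • p‖ := by
    have h1 : ‖p + h0 • p‖ ≤ 2 - c ^ 2 / 4 := by
      apply abs_le_of_sq_le_sq' _ (by linarith) |>.2
      rw [hadd]
      nlinarith [sq_nonneg (c ^ 2)]
    have : 0 < c ^ 2 := by positivity
    rw [hδ]; linarith
  obtain ⟨hu0, hv0, huc, hvc, hub, hvb, htau, htau01, hun, hvn, hPXc, hPYc, hPX1, hPY5, hPXa, hPXb,
    hPYa, hPYb⟩ := hMAPS V p hp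
  have hp5 : ‖p‖ < 5 := by rw [hp]; norm_num
  set y : OrbitConf H V (m + 1) := baseConf hV m hp hp5 with hy
  have hy0 : y.1 0 = p := by
    change pts m p p 0 = p
    exact pts_zero m p p
  have hsm : ∀ k : Fin (m + 1) → H, k • y = y → k = 1 := by
    intro k hk
    funext i
    have h1 : k i • pts m p p i = pts m p p i :=
      congrArg (fun c : OrbitConf H V (m + 1) => c.1 i) hk
    by_contra hki
    have h2 := hF (k i) hki _ h1
    by_cases hi : (i : ℕ) = 0
    · have h3 : pts m p p i = p := by unfold pts; rw [if_pos hi]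
      rw [h3] at h2
      rw [h2, norm_zero] at hp
      exact zero_ne_one hp
    · have h3 := (norm_pts (X := p) hp hi).2
      rw [h2, norm_zero] at h3
      linarith
  have hpc : PathConnectedSpace (Punctured H y) := hPC H V (m + 1) y hd
  -- the sphere
  have hfinU : Module.finrank ℝ (UU p) = Module.finrank ℝ V - 1 := by
    have h1 : Module.finrank ℝ (ℝ ∙ p) + Module.finrank ℝ (UU p) = Module.finrank ℝ V :=
      Submodule.finrank_add_finrank_orthogonal (K := (ℝ ∙ p))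
    have h2 : Module.finrank ℝ (ℝ ∙ p) = 1 := finrank_span_singleton (by
      intro h; rw [h, norm_zero] at hp; exact zero_ne_one hp)
    omega
  obtain ⟨N, hN⟩ : ∃ N, Module.finrank ℝ (UU p × UU p) = N + 1 := by
    refine ⟨2 * (Module.finrank ℝ V - 1) - 1, ?_⟩
    rw [Module.finrank_prod, hfinU]
    omega
  have hN1 : 1 ≤ N := by
    rw [Module.finrank_prod, hfinU] at hN
    omega
  obtain ⟨κ, hκb, hκ⟩ := hSPH (UU p × UU p) N hN1 hN
  -- the map into the total space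
  have hav : ∀ z : UU p × UU p, ‖z‖ ≤ 1 → ∀ h : H, PY δ p z ≠ h • PX p z := by
    intro z hz h
    have hz2 : ‖z.2‖ ≤ 1 := (norm_snd_le z).trans hz
    obtain ⟨t0, t1⟩ := htau01 z.2 hz2
    exact hAV H V hV c δ hc hc2 hgap hδ0 hδ50 _ _ p (tau z.2) (hun z.1) (hvn z.2) hp t0 t1
      (htau z.2) h
  have hPX5 : ∀ z : UU p × UU p, ‖z‖ ≤ 1 → ‖PX p z‖ < 5 := fun z hz =>
    lt_of_le_of_lt (hPX1 z hz) (by norm_num)
  have hPY5' : ∀ z : UU p × UU p, ‖z‖ ≤ 1 → ‖PY δ p z‖ < 5 := fun z hz =>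
    hPY5 δ hδ0 hδ1 z hz
  have hball : ∀ z : Metric.closedBall (0 : UU p × UU p) 1, ‖z.1‖ ≤ 1 := fun z =>
    mem_closedBall_zero_iff.1 z.2
  have hsph : ∀ z : Metric.sphere (0 : UU p × UU p) 1, ‖z.1‖ = 1 := fun z =>
    mem_sphere_zero_iff_norm.1 z.2
  let Φ : C(Metric.closedBall (0 : UU p × UU p) 1, OrbitConf H V (m + 2)) :=
    { toFun := fun z => fullConf hV m hp (hPX5 z.1 (hball z)) (hPY5' z.1 (hball z))
        (hav z.1 (hball z))
      continuous_toFun := by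
        apply Continuous.subtype_mk
        exact Continuous.finSnoc (continuous_pts m p (hPXc.comp continuous_subtype_val))
          ((hPYc δ).comp continuous_subtype_val) }
  have hΦ : ∀ z, (Φ z).1 = Fin.snoc (pts m p (PX p z.1)) (PY δ p z.1) := fun z => rfl
  have hcase : ∀ z : UU p × UU p, ‖z‖ = 1 → ‖z.1‖ = 1 ∨ ‖z.2‖ = 1 := by
    intro z hz
    rw [Prod.norm_def] at hz
    rcases max_choice ‖z.1‖ ‖z.2‖ with h | h
    · left; rw [← h]; exact hz
    · right; rw [← h]; exact hz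
  have hPXs : ∀ z : UU p × UU p, ‖z‖ = 1 → PX p z = p := by
    intro z hz
    rcases hcase z hz with h | h
    · exact hPXa z h
    · exact hPXb z h
  let W : C(Metric.sphere (0 : UU p × UU p) 1, Punctured H y) :=
    { toFun := fun z => ⟨PY δ p z.1, by
        apply punct_ok hV hp hp5 (hPY5' z.1 (hsph z).le)
        intro h
        have h1 := hav z.1 (hsph z).le h
        rwa [hPXs z.1 (hsph z)] at h1⟩
      continuous_toFun := by
        apply Continuous.subtype_mk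
        exact (hPYc δ).comp continuous_subtype_val }
  have hW : ∀ z, (W z).1 = PY δ p z.1 := fun z => rfl
  have hnull : FreelyNull ((snocMap y).comp (W.comp κ)) := by
    refine (hκ _ ((snocMap y).comp W)).2 ⟨Φ, ?_⟩
    intro z
    apply Subtype.ext
    rw [hΦ]
    change (Fin.snoc (pts m p (PX p z.1)) (PY δ p z.1) : Fin (m + 2) → V) =
      Fin.snoc (pts m p p) (PY δ p z.1)
    rw [hPXs z.1 (hsph z)]
  have hWκ : ConstBd (W.comp κ) := fun x hx x' hx' => congrArg W (hκb x hx x' hx')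
  have hfn := hINJ H E V hE hV (m + 1) hQ p hp y hsm hpc N hN1 (W.comp κ) hWκ hnull
  obtain ⟨Ψ, hΨ⟩ := (hκ _ W).1 hfn
  have hΨs : ∀ z : Metric.closedBall (0 : UU p × UU p) 1, ‖z.1‖ = 1 → (Ψ z).1 = PY δ p z.1 := by
    intro z hz
    have := hΨ ⟨z.1, mem_sphere_zero_iff_norm.2 hz⟩
    rw [← hW ⟨z.1, mem_sphere_zero_iff_norm.2 hz⟩, ← this]
  have hone : ∀ z : Metric.closedBall (0 : UU p × UU p) 1, ‖z.1.1‖ = 1 ∨ ‖z.1.2‖ = 1 →
      ‖z.1‖ = 1 := by
    intro z h
    apply le_antisymm (hball z)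
    rcases h with h | h
    · exact h.symm.le.trans (norm_fst_le z.1)
    · exact h.symm.le.trans (norm_snd_le z.1)
  refine hNO V p (h0 • p) δ hd hp hp' hδ0 hδi hδa hδ1
    ⟨fun z => (Ψ z).1, continuous_subtype_val.comp Ψ.continuous⟩ ?_ ?_ ?_ ?_
  · intro z h
    apply (Ψ z).2 0 1
    rw [one_smul, hy0]
    exact h
  · intro z h
    apply (Ψ z).2 0 h0
    rw [hy0]
    exact h
  · intro z hz
    change (Ψ z).1 = _
    rw [hΨs z (hone z (Or.inl hz)), hPYa δ z.1 hz]
  · intro z hz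
    change (Ψ z).1 = _
    rw [hΨs z (hone z (Or.inr hz)), hPYb δ z.1 hz]

end

end Pool.Agent.Helper33.Iso
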