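import Pool.Agent.Helper72.Orb.Main

/-!
# Isolated linear quotient orbifolds: definitions for the goals

Paper proof: see `Goals.lean`; it shows that the Fadell–Neuwirth maps of `V/H` are not
quasifibrations when `H ≠ 1` acts freely on `V ∖ 0`.
-/

set_option autoImplicit false

open Topology unitInterval RealInnerProductSpace
open Pool.Agent.Helper72.Orb

namespace Pool.Agent.Helper33.Iso

universe u v w

noncomputable section

/-! ### Spheroids -/

/-- The map is constant on the boundary of the cube. -/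
def ConstBd {A : Type*} [TopologicalSpace A] {N : ℕ} (l : C(Fin N → I, A)) : Prop :=
  ∀ x ∈ Cube.boundary (Fin N), ∀ y ∈ Cube.boundary (Fin N), l x = l y

/-- The map from the cube is homotopic to a constant, through maps which are constant on the
boundary. -/
def FreelyNull {A : Type*} [TopologicalSpace A] {N : ℕ} (l : C(Fin N → I, A)) : Prop :=
  ∃ K : C(I × (Fin N → I), A), (∀ x, K (0, x) = l x) ∧
    (∀ t, ∀ x ∈ Cube.boundary (Fin N), ∀ y ∈ Cube.boundary (Fin N), K (t, x) = K (t, y)) ∧
    ∀ x y, K (1, x) = K (1, y)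

/-! ### The fibre and the total space -/

section Fibre

variable {H : Type u} [Group H] {V : Type w} [NormedAddCommGroup V]
  [InnerProductSpace ℝ V] [MulAction H V]

/-- Add a point to a configuration, as a continuous map. -/
def snocMap {n : ℕ} (y : OrbitConf H V n) : C(Punctured H y, OrbitConf H V (n + 1)) where
  toFun z := y.snoc z
  continuous_toFun := by
    apply Continuous.subtype_mk
    exact Continuous.finSnoc continuous_const continuous_subtype_val

theorem far_ok (hV : IsOrthogonalAction H V) {g : V} (hg : ‖g‖ = 1) {n : ℕ}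
    (y : OrbitConf H V n) (i : Fin n) (h : H) : (1 + ∑ j, ‖y.1 j‖) • g ≠ h • y.1 i := by
  intro e
  have h1 := congrArg norm e
  have h2 : 0 ≤ ∑ j, ‖y.1 j‖ := Finset.sum_nonneg fun j _ => norm_nonneg _
  rw [hV.norm_smul, norm_smul, hg, mul_one, Real.norm_eq_abs, abs_of_nonneg (by linarith)] at h1
  have h3 : ‖y.1 i‖ ≤ ∑ j, ‖y.1 j‖ :=
    Finset.single_le_sum (f := fun j => ‖y.1 j‖) (fun j _ => norm_nonneg _) (Finset.mem_univ i)
  linarith

/-- A point of the fibre far away. -/
def far (hV : IsOrthogonalAction H V) {g : V} (hg : ‖g‖ = 1) {n : ℕ} (y : OrbitConf H V n) :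
    Punctured H y := ⟨(1 + ∑ j, ‖y.1 j‖) • g, far_ok hV hg y⟩

variable (H V) in
/-- `H` acts freely on `V ∖ 0`. -/
def FreeOff : Prop := ∀ h : H, h ≠ 1 → ∀ x : V, h • x = x → x = 0

end Fibre

/-! ### The explicit maps -/

section Maps

variable {V : Type w} [NormedAddCommGroup V] [InnerProductSpace ℝ V]

/-- The orthogonal complement of `p`. -/
abbrev UU (p : V) : Submodule ℝ V := (ℝ ∙ p)ᗮ

/-- The unit vector in the direction of `x`. -/
def nrm (x : V) : V := ‖x‖⁻¹ • x

/-- The unit ball of `UU p` is wrapped around the sphere, its boundary goes to `p`. -/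
def uu (p : V) (ξ : UU p) : V := (2 * (1 - ‖ξ‖)) • (ξ : V) + (2 * ‖ξ‖ - 1) • p

/-- The ball of radius `1/2` is wrapped around the sphere, its complement goes to `-p`. -/
def vv (p : V) (η : UU p) : V :=
  (4 * max (1 - 2 * ‖η‖) 0) • (η : V) + max (1 - 4 * ‖η‖) (-1) • p

/-- The time. -/
def tau {p : V} (η : UU p) : ℝ := max (2 * ‖η‖ - 1) 0

/-- The first moving point. -/
def PX (p : V) (z : UU p × UU p) : V := (1 - tau z.2) • nrm (uu p z.1) + tau z.2 • p

/-- The last point. -/
def PY (δ : ℝ) (p : V) (z : UU p × UU p) : V :=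
  PX p z + (tau z.2 * (2 - δ)) • (nrm (uu p z.1) - p) + δ • nrm (vv p z.2)

variable [FiniteDimensional ℝ V]

/-- The detecting map. -/
def QQ (p : V) (x : V × V) : (UU p × UU p) × ℝ :=
  (((UU p).orthogonalProjectionOnto x.1, (UU p).orthogonalProjectionOnto x.2),
    max ⟪p, x.1⟫ (-⟪p, x.2⟫))

end Maps

end

end Pool.Agent.Helper33.Iso
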