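import Pool.Agent.Helper33.Iso.Defs

/-!
# Orbifolds covered by a Euclidean space, linear at a singular point
-/

set_option autoImplicit false

open Topology unitInterval RealInnerProductSpace
open Pool.Agent.Helper72.Orb

namespace Pool.Agent.Helper33.Iso

universe u v w

/-- The group `H` acts on the Euclidean space `V` effectively, by homeomorphisms, and the origin is a
singular point at which the action is linear: the isotropy group of `0` is finite, nontrivial, and
acts on `V` by linear isometries, and a ball around `0` does not meet its translates by the other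
elements of `H`. -/
structure IsLinearAtZero (H : Type u) [Group H] (V : Type w) [NormedAddCommGroup V]
    [InnerProductSpace ℝ V] [MulAction H V] : Prop where
  continuous_smul : ∀ h : H, Continuous fun x : V => h • x
  faithful : ∀ h : H, (∀ v : V, h • v = v) → h = 1
  finite : {h : H | h • (0 : V) = 0}.Finite
  nontrivial : ∃ h : H, h ≠ 1 ∧ h • (0 : V) = 0
  smul_add : ∀ h : H, h • (0 : V) = 0 → ∀ v w : V, h • (v + w) = h • v + h • w
  smul_smul : ∀ h : H, h • (0 : V) = 0 → ∀ (r : ℝ) (v : V), h • (r • v) = r • (h • v)
  norm_smul : ∀ h : H, h • (0 : V) = 0 → ∀ v : V, ‖h • v‖ = ‖v‖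
  discrete : ∃ R : ℝ, 0 < R ∧ ∀ h : H, (∃ v : V, ‖v‖ < R ∧ ‖h • v‖ < R) → h • (0 : V) = 0

end Pool.Agent.Helper33.Iso
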