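import Pool.Agent.Helper33.Iso.Defs

/-!
# Isolated linear quotient orbifolds: goals
-/

set_option autoImplicit false

open Topology unitInterval RealInnerProductSpace
open Pool.Agent.Helper72.Orb

namespace Pool.Agent.Helper33.Iso

universe u v w

noncomputable section

/-- **COLLAR.**  Proof.  Let `ρ x = 2 * ‖cc x‖` (`cc`, `norm_cc_le`, `norm_cc_boundary`, `ofCc`,
`cc_ofCc` of `Helper72/Orb/Cube.lean`), so `0 ≤ ρ ≤ 1`, `ρ = 1` on the boundary.  Put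
`K (t, x) = l (ofCc ((1 + t) • cc x))` if `(1 + t) * ρ x ≤ 1` and `K (t, x) = c ((1 + t) * ρ x - 1)`
if `1 ≤ (1 + t) * ρ x` (then `0 ≤ (1 + t) ρ - 1 ≤ t ≤ 1`).  On the overlap `(1 + t) ρ = 1` the point
`ofCc ((1 + t) • cc x)` has norm `1/2`, so it is in the boundary (`mem_boundary_of_norm`), and both
values are `a`.  A convenient way to get continuity: `K (t, x) = l (clip ((1 + t) • cc x))` if
`(1 + t) ρ ≤ 1` with the total continuous map `clip` (clip every coordinate to `[-1/2, 1/2]`, add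
`1/2`; e.g. `Set.projIcc`), and `c.extend ((1 + t) ρ - 1)` otherwise; use `Continuous.if_le`. -/
def COLLAR : Prop := ∀ (A : Type u) [TopologicalSpace A] (N : ℕ) (l : C(Fin N → I, A)) (a b : A)
  (c : Path a b), (∀ x ∈ Cube.boundary (Fin N), l x = a) →
  ∃ K : C(I × (Fin N → I), A), (∀ x, K (0, x) = l x) ∧
    ∀ t, ∀ x ∈ Cube.boundary (Fin N), K (t, x) = c t

/-- **FREEREL.**  Proof.  `ρ` as in `COLLAR`, `x₁` a boundary point (`N ≥ 1`, e.g. `0`),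
`c t = K (t, x₁)`, a continuous map `I → A` with `c 0 = a`, and `K (1, x) = c 1` for all `x`.
`L (t, x) = K (t, clip ((1 + t) • cc x))` if `(1 + t) ρ x ≤ 1`, `L (t, x) = c (t - ((1 + t) ρ x - 1))`
(argument clipped to `I`) otherwise.  Agreement for `(1 + t) ρ = 1`: both are `c t` (the point is in
the boundary).  `L (0, x) = K (0, x) = l x`; `L (t, x) = c 0 = a` for `x` in the boundary;
`L (1, x) = c (min 1 (2 - 2 ρ x))`.  Second homotopy `L' (s, x) = c ((1 - s) * min 1 (2 - 2 ρ x))`, from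
`L (1, ·)` to the constant `a`, equal to `c 0 = a` on the boundary.  Compose
(`ContinuousMap.HomotopicRel.trans`). -/
def FREEREL : Prop := ∀ (A : Type u) [TopologicalSpace A] (N : ℕ), 1 ≤ N →
  ∀ (l : C(Fin N → I, A)) (a : A), (∀ x ∈ Cube.boundary (Fin N), l x = a) → FreelyNull l →
    l.HomotopicRel (ContinuousMap.const _ a) (Cube.boundary (Fin N))

/-- **LIFTBD.**  Proof.  Let `x` be in the boundary, `x i = 0` or `x i = 1`.  The path
`P t = fun j => if j = i then x i else (1 - t) * x j` stays in the boundary, so `q ∘ L ∘ P` is constant,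
and by unique lifting (`IsCoveringMap.eq_of_comp_eq`, as in `exists_lift_cube` of
`Helper72/Orb/Cover.lean`) `L x = L (P 0) = L (P 1)`, `P 1 = fun j => if j = i then x i else 0`.  If
`x i = 0` this is `0`.  If `x i = 1`, the path `fun j => if j = i then (1 - t) else 0` has a zero
coordinate (`N + 2 ≥ 2`), stays in the boundary and ends at `0`. -/
def LIFTBD : Prop := ∀ (A : Type u) (B : Type v) [TopologicalSpace A] [TopologicalSpace B]
  (q : A → B), IsCoveringMap q → ∀ (N : ℕ) (L : C(Fin (N + 2) → I, A)),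
    (∀ x ∈ Cube.boundary (Fin (N + 2)), q (L x) = q (L 0)) →
    ∀ x ∈ Cube.boundary (Fin (N + 2)), L x = L 0

/-- **SURJ.**  Proof (may use `LIFTBD` as a hypothesis).  A class in `π_(q+2) (ClassPB n)` based at
`classForget n (classIncl e y [(e', far)]) = [(e, y)]` is `ofLoop d`.  By `exists_lift_cube` (covering
`cover_PB hE (continuous_act hV) n`) `d` lifts to `L : C(Fin (q+2) → I, (Fin n → E) × OrbitConf H V n)`,
`L 0 = (e, y)`, and by `LIFTBD` `L = (e, y)` on the boundary.  Let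
`c x = [(Fin.snoc (L x).1 e', (L x).2.snoc (far hV hg (L x).2))]`, continuous (the point
`(1 + ∑ j, ‖y' j‖) • g` depends continuously on `y'`); on the boundary it is
`[(Fin.snoc e e', y.snoc (far hV hg y))] = classIncl e y [(e', far hV hg y)]`, so it is a `GenLoop`,
and its image under `classForget n` is `[((L x).1, (L x).2)] = d x`. -/
def SURJ : Prop := ∀ (H : Type u) [Group H] (E : Type v) [TopologicalSpace E] [MulAction H E]
  (V : Type w) [NormedAddCommGroup V] [InnerProductSpace ℝ V] [MulAction H V],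
  IsUniversalSpace H E → ∀ (hV : IsOrthogonalAction H V) (n : ℕ) (g : V) (hg : ‖g‖ = 1)
    (y : OrbitConf H V n) (e : Fin n → E) (e' : E) (q : ℕ),
    Function.Surjective (piMap (q + 2) (classForget n)
      (classIncl e y (Quotient.mk'' (e', far hV hg y) : ClassFiber H E y)))

/-- **INJFAR.**  Proof (may use `SURJ` as a hypothesis).  `N = m + 1`.  Choose `e0 : E`
(`hE.contractible`), `e = fun _ => e0`, `z = far hV hg y`, and the `δ` of `hQ y hsm z e e0`.  By `SURJ`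
and exactness at `π_(q+2) (ClassPB n)`, `δ m b = 1` for all `b`, so by exactness at `π_(m+1) (F)`:
`piMap (m+1) (classIncl e y) _ a = 1 → a = 1`.  Let `a = ofLoop` of `x ↦ [(e0, l x)]`.  The given
homotopy rel boundary, composed with `x ↦ [(Fin.snoc e e0, x)]` (`atPoint`), shows that its image is
`1`.  So `x ↦ [(e0, l x)]` is homotopic rel boundary to the constant in `ClassFiber H E y`; by
`IsCoveringMap.homotopicRel_iff_comp` for `cover_fiber hE (continuous_act hV) y` (used as in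
`exists_lift_loop`) `x ↦ (e0, l x)` is homotopic rel boundary to the constant `(e0, z)` in
`E × Punctured H y`; project to the second factor.  Compare `exists_fiber_loop` in
`Helper72/Orb/Cover.lean`. -/
def INJFAR : Prop := ∀ (H : Type u) [Group H] (E : Type v) [TopologicalSpace E] [MulAction H E]
  (V : Type w) [NormedAddCommGroup V] [InnerProductSpace ℝ V] [MulAction H V],
  IsUniversalSpace H E → ∀ (hV : IsOrthogonalAction H V) (n : ℕ), IsQuasifibration H E V n →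
    ∀ (g : V) (hg : ‖g‖ = 1) (y : OrbitConf H V n), (∀ k : Fin n → H, k • y = y → k = 1) →
    ∀ (N : ℕ), 1 ≤ N → ∀ l : C(Fin N → I, Punctured H y),
      (∀ x ∈ Cube.boundary (Fin N), l x = far hV hg y) →
      ((snocMap y).comp l).HomotopicRel (ContinuousMap.const _ (snocMap y (far hV hg y)))
        (Cube.boundary (Fin N)) →
      l.HomotopicRel (ContinuousMap.const _ (far hV hg y)) (Cube.boundary (Fin N))

/-- **PATHCONN.**  Proof.  `Punctured H y` is the complement in `V` of the finite set of all `h • y i`;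
`Set.Countable.isPathConnected_compl_of_one_lt_rank`. -/
def PATHCONN : Prop := ∀ (H : Type u) [Group H] [Finite H] (V : Type w) [NormedAddCommGroup V]
  [InnerProductSpace ℝ V] [FiniteDimensional ℝ V] [MulAction H V] (n : ℕ) (y : OrbitConf H V n),
  2 ≤ Module.finrank ℝ V → PathConnectedSpace (Punctured H y)

/-- **INJ.**  Proof (may use `COLLAR`, `FREEREL`, `INJFAR`).  Let `l = z` on the boundary, `c` a path in
`Punctured H y` from `z` to `far hV hg y`.  `COLLAR` gives `K` with `K (0, ·) = l`, `K (t, ·) = c t` on the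
boundary; `l' = K (1, ·)` has the value `far hV hg y` on the boundary.  `snocMap y ∘ l'` is freely null:
first the reversed homotopy `snocMap y ∘ K (1 - t, ·)`, then the given one for `l` (concatenation:
`ContinuousMap.Homotopy.trans`, `symm`).  By `FREEREL` it is null rel boundary, by `INJFAR` `l'` is null rel
boundary, so `l` is freely null: first `K`, then this homotopy. -/
def INJ : Prop := ∀ (H : Type u) [Group H] (E : Type v) [TopologicalSpace E] [MulAction H E]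
  (V : Type w) [NormedAddCommGroup V] [InnerProductSpace ℝ V] [MulAction H V],
  IsUniversalSpace H E → ∀ (_ : IsOrthogonalAction H V) (n : ℕ), IsQuasifibration H E V n →
    ∀ (g : V) (_ : ‖g‖ = 1) (y : OrbitConf H V n), (∀ k : Fin n → H, k • y = y → k = 1) →
    PathConnectedSpace (Punctured H y) →
    ∀ (N : ℕ), 1 ≤ N → ∀ l : C(Fin N → I, Punctured H y), ConstBd l →
      FreelyNull ((snocMap y).comp l) → FreelyNull l

/-- **SPHERE.**  Proof.  Take `κ` of `exists_kappa` (`Helper72/Orb/Cube.lean`); its proof gives more,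
repeat it: `κ x = Λ (kap x)` with a continuous linear equivalence `Λ`, and the map
`m : I × (Fin N → I) → closedBall 0 1`, `(t, x) ↦ t • ‖κ x‖⁻¹ • κ x`, is a continuous surjection of compact
Hausdorff spaces, so a quotient map, and `m (t, x) = m (t', x')` only if `t = t'` and (`t = 0` or `x = x'` or
`x, x'` both in the boundary) (`kap_ray`, `exists_kap`).  The map wanted is `x ↦ ‖κ x‖⁻¹ • κ x` into the
sphere.  `→`: given `K`, `g (t, x) = K (1 - t, x)` factors through `m` (as in `exists_kappa`), this is `Ψ`;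
`Ψ (‖κ x‖⁻¹ • κ x) = K (0, x) = W (..)`, and every point of the sphere is of this form.
`←`: `K (t, x) = Ψ ((1 - t) • ‖κ x‖⁻¹ • κ x)`. -/
def SPHERE : Prop := ∀ (Z : Type u) [NormedAddCommGroup Z] [NormedSpace ℝ Z]
  [FiniteDimensional ℝ Z] (N : ℕ), 1 ≤ N → Module.finrank ℝ Z = N + 1 →
  ∃ κ : C(Fin N → I, Metric.sphere (0 : Z) 1), ConstBd κ ∧
    ∀ (A : Type v) [TopologicalSpace A] (W : C(Metric.sphere (0 : Z) 1, A)),
      FreelyNull (W.comp κ) ↔ ∃ Ψ : C(Metric.closedBall (0 : Z) 1, A),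
        ∀ z : Metric.sphere (0 : Z) 1, Ψ ⟨z.1, Metric.sphere_subset_closedBall z.2⟩ = W z

/-- **GAP.**  Proof.  For each `h ≠ 1` the linear map `x ↦ h • x - x` (see `lin`, `smul_sub'` in
`Helper72/Orb/Linear.lean`) is injective, so bounded below (`LinearMap.exists_antilipschitzWith` or
compactness of the unit sphere); take the minimum over the finitely many `h` and `2`. -/
def GAP : Prop := ∀ (H : Type u) [Group H] [Finite H] (V : Type w) [NormedAddCommGroup V]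
  [InnerProductSpace ℝ V] [FiniteDimensional ℝ V] [MulAction H V],
  IsOrthogonalAction H V → FreeOff H V →
    ∃ c : ℝ, 0 < c ∧ c ≤ 2 ∧ ∀ h : H, h ≠ 1 → ∀ x : V, c * ‖x‖ ≤ ‖h • x - x‖

/-- **AVOID.**  `X = (1 - t) u + t p`, `Y = X + t (2 - δ) (u - p) + δ v`; then `Y ≠ h X`.
Proof.  `δ < c ^ 2 / 50 ≤ 4 / 50 < 1 / 8` and `δ < c`.
Case `t = 0`: `X = u`, `Y = u + δ v`; `h = 1`: `δ v = 0`, no.  `h ≠ 1`: `h u - u = δ v`, so
`c = c ‖u‖ ≤ δ`, no.
Case `v = -p`.  `h = 1`: `⟪Y - X, p⟫ = t (2 - δ) (⟪u, p⟫ - 1) - δ < 0`, no.  `h ≠ 1`: put `k = ⟪u, p⟫ ≤ 1`,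
`α = 1 + t - δ t`, `β = t + δ - δ t`: `Y = α u - β p`.  `‖Y‖ = ‖X‖` gives
`0 = ‖Y‖² - ‖X‖² = (1 - δ)² + 2 α β (1 - k) - 1 + 2 t (1 - t) (1 - k)`, so `(1 - k) α β ≤ δ`; `α ≥ 1`,
`β ≥ t / 2`, so `t (1 - k) ≤ 2 δ`.  `‖X‖² = 1 - 2 t (1 - t) (1 - k) ≥ 1 - 4 δ ≥ 1 / 2`.
`‖Y - X‖ ≤ t (2 - δ) ‖u - p‖ + δ`, `(t (2 - δ) ‖u - p‖)² ≤ 4 t² · 2 (1 - k) ≤ 16 δ`, so
`‖Y - X‖² ≤ 25 δ` (`δ ≤ √δ`).  But `‖Y - X‖ = ‖h X - X‖ ≥ c ‖X‖`, so `c² / 2 ≤ 25 δ`, no. -/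
def AVOID : Prop := ∀ (H : Type u) [Group H] (V : Type w) [NormedAddCommGroup V]
  [InnerProductSpace ℝ V] [MulAction H V], IsOrthogonalAction H V → ∀ (c δ : ℝ), 0 < c → c ≤ 2 →
    (∀ h : H, h ≠ 1 → ∀ x : V, c * ‖x‖ ≤ ‖h • x - x‖) → 0 < δ → δ < c ^ 2 / 50 →
    ∀ (u v p : V) (t : ℝ), ‖u‖ = 1 → ‖v‖ = 1 → ‖p‖ = 1 → 0 ≤ t → t ≤ 1 → (t = 0 ∨ v = -p) →
      ∀ h : H, ((1 - t) • u + t • p) + (t * (2 - δ)) • (u - p) + δ • v ≠
        h • ((1 - t) • u + t • p)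

/-- **MAPS.**  Elementary facts on `uu`, `vv`, `tau`, `PX`, `PY`.  Proof.  `⟪p, ξ⟫ = 0` for `ξ : UU p`, so
`‖uu p ξ‖² = 4 (1 - r)² r² + (2 r - 1)²`, `r = ‖ξ‖`: if it is `0` then `r = 1/2`, impossible.
`‖vv p η‖² = 16 max(1 - 2 r, 0)² r² + max(1 - 4 r, -1)²`: if it is `0`, then `r = 1/4`, impossible.
The boundary values are immediate; `‖nrm x‖ = 1` for `x ≠ 0`. -/
def MAPS : Prop := ∀ (V : Type w) [NormedAddCommGroup V] [InnerProductSpace ℝ V] (p : V),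
  ‖p‖ = 1 → (∀ ξ : UU p, uu p ξ ≠ 0) ∧ (∀ η : UU p, vv p η ≠ 0) ∧
    Continuous (uu p) ∧ Continuous (vv p) ∧
    (∀ ξ : UU p, ‖ξ‖ = 1 → uu p ξ = p ∧ nrm (uu p ξ) = p) ∧
    (∀ η : UU p, ‖η‖ = 1 → tau η = 1 ∧ vv p η = -p ∧ nrm (vv p η) = -p) ∧
    (∀ η : UU p, tau η = 0 ∨ nrm (vv p η) = -p) ∧
    (∀ η : UU p, ‖η‖ ≤ 1 → 0 ≤ tau η ∧ tau η ≤ 1) ∧
    (∀ ξ : UU p, ‖nrm (uu p ξ)‖ = 1) ∧ (∀ η : UU p, ‖nrm (vv p η)‖ = 1) ∧
    Continuous (PX p) ∧ (∀ δ : ℝ, Continuous (PY δ p)) ∧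
    (∀ z : UU p × UU p, ‖z‖ ≤ 1 → ‖PX p z‖ ≤ 1) ∧
    (∀ δ : ℝ, 0 < δ → δ < 1 → ∀ z : UU p × UU p, ‖z‖ ≤ 1 → ‖PY δ p z‖ < 5) ∧
    (∀ z : UU p × UU p, ‖z.1‖ = 1 → PX p z = p) ∧
    (∀ z : UU p × UU p, ‖z.2‖ = 1 → PX p z = p) ∧
    (∀ (δ : ℝ) (z : UU p × UU p), ‖z.1‖ = 1 → PY δ p z = p + δ • nrm (vv p z.2)) ∧
    (∀ (δ : ℝ) (z : UU p × UU p), ‖z.2‖ = 1 → PY δ p z = -p + (2 - δ) • nrm (uu p z.1))

/-- **EH** (Eckmann–Hilton).  Proof.  `exists_kappa` (with `e := b`) gives `κ`, `κ = b` on the boundary; put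
`k x = ‖κ x‖⁻¹ • κ x` in the sphere, so `k = b` on the boundary.  For `t : I` let
`λ_t x = (min 1 ((1 + t) x_0), x_1, ..)`, `μ_t x = (max 0 ((1 + t) x_0 - t), x_1, ..)`; both map the boundary
to itself, `λ_0 = μ_0 = id`, and for all `x` `λ_1 x` or `μ_1 x` is in the boundary.  Homotopies
`I × (Fin N → I) → Z ∖ 0`, constant on the boundary at each time:
(i) `(1 - s θ(k x)) • Q (f (k x), g (k x)) + (s θ(k x)) • e` for `s` from `1` to `0`;
(ii) `Q (f (k (λ_t x)), g (k (μ_t x)))`;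
(iii) `(1 - t) • Q (f (k (λ_1 x)), g (k (μ_1 x))) + t • e`.
Concatenate (as in the proof of `not_quasifibration`, `Helper72/Orb/Main.lean`, with the subtype of nonzero
vectors) and apply the property of `κ`: there are `x`, `t` with
`(1 - t) • ((1 - θ(k x)) • Q (..) + θ(k x) • e) + t • κ x = 0`; `t ≠ 1` since `κ x ≠ 0`; so the claim holds
with `z = k x`, `lam = t ‖κ x‖ / (1 - t)`. -/
def EH : Prop := ∀ (Z : Type u) [NormedAddCommGroup Z] [NormedSpace ℝ Z]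
  [FiniteDimensional ℝ Z] (N : ℕ), 1 ≤ N → Module.finrank ℝ Z = N + 1 →
  ∀ (A B : Type v) [TopologicalSpace A] [TopologicalSpace B] (b : Metric.sphere (0 : Z) 1)
    (f : C(Metric.sphere (0 : Z) 1, A)) (g : C(Metric.sphere (0 : Z) 1, B)) (Q : C(A × B, Z))
    (e : Z) (θ : C(Metric.sphere (0 : Z) 1, I)),
    (∀ w, Q w ≠ 0) →
    (∀ x y, x = f b ∨ y = g b → ∀ t : I, (1 - (t : ℝ)) • Q (x, y) + (t : ℝ) • e ≠ 0) →
    (∀ z, ∀ t : I, (1 - (t : ℝ) * (θ z : ℝ)) • Q (f z, g z) + ((t : ℝ) * (θ z : ℝ)) • e ≠ 0) →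
    ∃ (z : Metric.sphere (0 : Z) 1) (lam : ℝ), 0 ≤ lam ∧
      (1 - (θ z : ℝ)) • Q (f z, g z) + (θ z : ℝ) • e = -(lam • (z : Z))

/-- **QFACTS.**  Facts on `QQ`.  Proof.  `x = (projection to UU p) + ⟪p, x⟫ p`.  If the projections of `x` and
`y` are `0` and `max ⟪p, x⟫ (-⟪p, y⟫) ≤ 0`, then `⟪p, x⟫ < 0 < ⟪p, y⟫` as `x, y ≠ 0`: so the value is not `0`. -/
def QFACTS : Prop := ∀ (V : Type w) [NormedAddCommGroup V] [InnerProductSpace ℝ V]
  [FiniteDimensional ℝ V] (p : V), ‖p‖ = 1 → Continuous (QQ p) ∧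
    (∀ x y : V, x ≠ 0 → y ≠ 0 → QQ p (x, y) ≠ 0) ∧
    (∀ x y : V, x ≠ 0 → y ≠ 0 → ∀ lam : ℝ, 0 ≤ lam →
      QQ p (x, y) = -(lam • ((0, 1) : (UU p × UU p) × ℝ)) →
      ∃ a b : ℝ, 0 < a ∧ 0 < b ∧ x = -(a • p) ∧ y = b • p) ∧
    (∀ ξ η : UU p, ∀ s t : ℝ, QQ p ((ξ : V) + s • p, (η : V) + t • p) = ((ξ, η), max s (-t)))

/-- **SIGMA.**  `x₁ = (1 - s⁺) uu ξ + s⁺ (y - p')`, `x₂ = (1 - s⁺) vv η + s⁺ (y - p)`, `s⁺ = max s 0`.
Proof (may use `MAPS`, `QFACTS`).  `û = nrm (uu p ξ)`, `v̂ = nrm (vv p η)`; `uu = ‖uu‖ û`, `vv = ‖vv‖ v̂`.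
(1) `x₁, x₂ ≠ 0`: clear if `s ≤ 0` and if `s = 1`.  If `0 < s < 1`, then `‖ξ‖ = 1` or `‖η‖ = 1`.
`‖ξ‖ = 1`: `uu = p`, `y = p + δ v̂`, `⟪p, x₁⟫ ≥ (1 - s) + s (1 - ⟪p', p⟫ - δ) > 0`, `x₂ = ((1 - s) ‖vv‖ + s δ) v̂`.
`‖η‖ = 1`: `vv = -p`, `y = -p + (2 - δ) û`, `x₁ = ((1 - s) ‖uu‖ + s (2 - δ)) û - s (p + p')`, norm
`≥ (1 - s) ‖uu‖ + s (2 - δ - ‖p + p'‖) > 0`; `⟪p, x₂⟫ ≤ -(1 - s) - s δ < 0`.
(2) If `-1 < s`, then not (`x₁ = -a p` and `x₂ = b p`, `a, b > 0`): for `s = 1`, `y = p' - a p = p + b p`, so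
`p' = (1 + a + b) p`, norms.  For `s < 1` `‖ξ‖ = 1` or `‖η‖ = 1`; in the first case `⟪p, x₁⟫ > 0`, in the second
`⟪p, x₂⟫ < 0` (formulas of (1); for `s ≤ 0` `x₁ = uu`, `x₂ = vv`). -/
def SIGMA : Prop := ∀ (V : Type w) [NormedAddCommGroup V] [InnerProductSpace ℝ V]
  [FiniteDimensional ℝ V] (p p' y : V) (δ s : ℝ) (ξ η : UU p), ‖p‖ = 1 → ‖p'‖ = 1 → 0 < δ →
    δ < 1 - ⟪p', p⟫ → δ < 2 - ‖p + p'‖ → δ < 1 → ‖(((ξ, η), s) : (UU p × UU p) × ℝ)‖ = 1 →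
    y ≠ p → y ≠ p' → (‖ξ‖ = 1 → y = p + δ • nrm (vv p η)) →
    (‖η‖ = 1 → y = -p + (2 - δ) • nrm (uu p ξ)) →
    (1 - max s 0) • uu p ξ + max s 0 • (y - p') ≠ 0 ∧
    (1 - max s 0) • vv p η + max s 0 • (y - p) ≠ 0 ∧
    (-1 < s → ∀ a b : ℝ, 0 < a → 0 < b →
      ¬ ((1 - max s 0) • uu p ξ + max s 0 • (y - p') = -(a • p) ∧
        (1 - max s 0) • vv p η + max s 0 • (y - p) = b • p))

/-- **THETA.**  For `s < 0` only (there `x₁ = uu`, `x₂ = vv`); `θ = 1 + s`.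
Proof (may use `MAPS`, `QFACTS`).  `Q = QQ p (uu p ξ, vv p η)
  = (((2 (1 - ‖ξ‖)) ξ, (4 max (1 - 2 ‖η‖) 0) η), max (2 ‖ξ‖ - 1) (-(max (1 - 4 ‖η‖) (-1))))`.
Suppose `(1 - θ) Q + θ e = -(lam z)`, `z = ((ξ, η), s)`, `lam ≥ 0`, `1 - θ = -s > 0`.
`lam = 0`: then `(-s) Q = -((1 + s) e)`, so `Q = -(lam' e)`, `lam' ≥ 0`, so by `QFACTS` `uu p ξ = -(a p)`,
`vv p η = b p`, `a, b > 0`, so `‖ξ‖ < 1` and `‖η‖ < 1` (else `uu = p` or `vv = -p`), so `s = -1` (norm `1`), so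
`Q = 0`, no.
`lam > 0`: the first two coordinates give `ξ = 0` or `‖ξ‖ > 1`, .. precisely
`(-s · 2 (1 - ‖ξ‖) + lam) ξ = 0` with a positive coefficient (`‖ξ‖ ≤ 1`), so `ξ = 0`; likewise `η = 0`; so
`s = -1`, `θ = 0`, `Q` has the third coordinate `max (-1) (-1) = -1`, but `-(lam s) = lam > 0`, no. -/
def THETA : Prop := ∀ (V : Type w) [NormedAddCommGroup V] [InnerProductSpace ℝ V]
  [FiniteDimensional ℝ V] (p : V) (s lam : ℝ) (ξ η : UU p), ‖p‖ = 1 →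
    ‖(((ξ, η), s) : (UU p × UU p) × ℝ)‖ = 1 → s < 0 → 0 ≤ lam →
    (1 - (1 + s)) • QQ p (uu p ξ, vv p η) + (1 + s) • ((0, 1) : (UU p × UU p) × ℝ) ≠
      -(lam • (((ξ, η), s) : (UU p × UU p) × ℝ))

/-- **NOPSI.**  Proof (may use `MAPS`, `QFACTS`, `SIGMA`, `THETA`, `EH`).  Apply `EH` with
`Z = (UU p × UU p) × ℝ` (sup norm, dimension `2 a + 1`, `a = dim V - 1 ≥ 1`), `N = 2 a`,
`A = B = {x : V // x ≠ 0}`, `f z = (1 - s⁺) uu p ξ + s⁺ (Ψ (ξ, η) - p')`,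
`g z = (1 - s⁺) vv p η + s⁺ (Ψ (ξ, η) - p)` (`SIGMA`), `Q = QQ p`, `e = (0, 1)`, `θ z = min 1 (1 + s)`,
`b = ((ξ₁, ξ₁), 0)` with a unit vector `ξ₁` of `UU p`; `f b = p`, `g b = -p`.  Hypotheses of `EH`: the first is
`QFACTS`; the second: `QQ p (p, y)` and `QQ p (x, -p)` have a third coordinate `≥ 1`; the third: by `QFACTS`
`(1 - t θ) Q + t θ e = 0` with `0 < t θ` implies `Q = -(lam e)` (if `t θ = 1` then `e = 0`, no), so
`f z = -(a p)`, `g z = b p`, against `SIGMA` (`θ > 0` means `s > -1`).  Conclusion of `EH`: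
`(1 - θ) Q + θ e = -(lam z)`.  If `s ≥ 0` then `θ = 1` and the third coordinates are `1` and `-(lam s) ≤ 0`.
If `s < 0` this contradicts `THETA`. -/
def NOPSI : Prop := ∀ (V : Type w) [NormedAddCommGroup V] [InnerProductSpace ℝ V]
  [FiniteDimensional ℝ V] (p p' : V) (δ : ℝ), 2 ≤ Module.finrank ℝ V → ‖p‖ = 1 → ‖p'‖ = 1 →
    0 < δ → δ < 1 - ⟪p', p⟫ → δ < 2 - ‖p + p'‖ → δ < 1 →
    ∀ Ψ : C(Metric.closedBall (0 : UU p × UU p) 1, V), (∀ z, Ψ z ≠ p) → (∀ z, Ψ z ≠ p') →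
    (∀ z : Metric.closedBall (0 : UU p × UU p) 1, ‖z.1.1‖ = 1 →
      Ψ z = p + δ • nrm (vv p z.1.2)) →
    (∀ z : Metric.closedBall (0 : UU p × UU p) 1, ‖z.1.2‖ = 1 →
      Ψ z = -p + (2 - δ) • nrm (uu p z.1.1)) → False

/-- **MAIN.**  The theorem.  (Assembly by helper33 from `INJ`, `PATHCONN`, `SPHERE`, `GAP`, `AVOID`,
`MAPS`, `NOPSI`.) -/
def MAIN : Prop := ∀ (H : Type u) [Group H] [Finite H] (V : Type w) [NormedAddCommGroup V]
  [InnerProductSpace ℝ V] [FiniteDimensional ℝ V] [MulAction H V] (E : Type v)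
  [TopologicalSpace E] [MulAction H E], IsOrthogonalAction H V → FreeOff H V →
    (∃ h : H, h ≠ 1) → 2 ≤ Module.finrank ℝ V → IsUniversalSpace H E →
    ∀ m : ℕ, ¬ IsQuasifibration H E V (m + 1)

end

end Pool.Agent.Helper33.Iso
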