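import Pool.Agent.Helper33.Iso.Goals
import Pool.Agent.Helper33.Iso.Defs2

/-!
# Orbifolds covered by a Euclidean space, linear at a singular point: goals
-/

set_option autoImplicit false

open Topology unitInterval RealInnerProductSpace
open Pool.Agent.Helper72.Orb

namespace Pool.Agent.Helper33.Iso

universe u v w

noncomputable section

/-- **TRIVB.**  The higher homotopy groups of the classifying space of `PB_1(M) = M`, `M = V/H`, vanish.
Proof (may use `LIFTBD`, `FREEREL`).  `b = ofLoop d`.  By `exists_lift_cube` and the covering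
`cover_PB hE hX 1` (`Helper72/Orb/Cover.lean`) `d` lifts to `L : C(Fin (q+2) → I, Y)`,
`Y = (Fin 1 → E) × OrbitConf H V 1`, `L 0 = (e, y)`; by `LIFTBD` `L` is constant on the boundary.  `Y` is
contractible: `Fin 1 → E` since `E` is (product of contractible spaces), and `OrbitConf H V 1` is
homeomorphic to `V` (no condition for `n = 1`; contraction `(t, y) ↦ (1 - t) • y`).  So there is
`C : C(I × Y, Y)` with `C (0, ·) = id` and `C (1, ·)` constant, `K (t, x) = C (t, L x)` shows
`FreelyNull L`, by `FREEREL` `L` is null rel boundary; compose with the covering: `d` is null rel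
boundary, so `b = 1`. -/
def TRIVB : Prop := ∀ (H : Type u) [Group H] (E : Type v) [TopologicalSpace E] [MulAction H E]
  (V : Type w) [NormedAddCommGroup V] [InnerProductSpace ℝ V] [MulAction H V],
  IsUniversalSpace H E → (∀ h : H, Continuous fun x : V => h • x) →
    ∀ (e : Fin 1 → E) (y : OrbitConf H V 1) (q : ℕ)
      (b : π_ (q + 2) (ClassPB H E V 1) (Quotient.mk'' (e, y) : ClassPB H E V 1)), b = 1

/-- **INJONE.**  Proof (may use `TRIVB`, `FREEREL`); compare `INJFAR` and `exists_fiber_loop` in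
`Helper72/Orb/Cover.lean`.  `N = m + 1`, `z = l 0` (`0` is in the boundary), so `l = z` on the boundary; by
`FREEREL` `snocMap y ∘ l` is homotopic rel boundary to the constant `snocMap y z`.  `E` is nonempty:
`e0 : E`, `e = fun _ => e0`, `δ` of `hQ y hsm z e e0`.  The base point
`classForget 1 (classIncl e y [(e0, z)])` is `[(e, y)]`, so by `TRIVB` every `b` in
`π_(m+2) (ClassPB H E V 1)` is `1` and `δ m b = 1`; by exactness at `π_(m+1)(F)`:
`piMap (m+1) (classIncl e y) _ a = 1 → a = 1`.  Apply this to `a = ofLoop` of `x ↦ [(e0, l x)]`: its image is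
`1` by composing the homotopy with `atPoint (Fin.snoc e e0)`.  So `x ↦ [(e0, l x)]` is null rel boundary;
by `IsCoveringMap.homotopicRel_iff_comp` for `cover_fiber hE hX y` so is `x ↦ (e0, l x)`; project. -/
def INJONE : Prop := ∀ (H : Type u) [Group H] (E : Type v) [TopologicalSpace E] [MulAction H E]
  (V : Type w) [NormedAddCommGroup V] [InnerProductSpace ℝ V] [MulAction H V],
  IsUniversalSpace H E → (∀ h : H, Continuous fun x : V => h • x) → IsQuasifibration H E V 1 →
    ∀ y : OrbitConf H V 1, (∀ k : Fin 1 → H, k • y = y → k = 1) →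
    ∀ (N : ℕ), 1 ≤ N → ∀ l : C(Fin N → I, Punctured H y), ConstBd l →
      FreelyNull ((snocMap y).comp l) → FreelyNull l

/-- **NONISO.**  The local part of `not_quasifibration` (`Helper72/Orb/Main.lean`).
Proof.  Copy that proof: `p, k` from `exists_minimal`, `g` from `exists_generic`, `κ`, `A`, `R`, `C`, `c`,
`PX`, `PY` as there; `X = PX`, `Y = PY`.  The facts `hnX`, `hnY`, `hXY`, `hPXb`, `hPYb`, `hX0st` give the
first conditions.  For the last one replace `delC .. (K a)` by `del hV p k q (P a) (Q a)`, which is nonzero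
by `del_ne_zero hV hp hkp hq` (conditions `Q a ≠ P a`, `Q a ≠ k • P a`), and the fibre map by
`x ↦ del hV p k q (P (1, x)) (Q (1, x))` with `P (1, x) = X 0`: it misses the half line of `(-q, q, 0)` by
`del_fiber`, exactly as in `hfib`.  The homotopies `H1`, `H2`, the application of the property `hκ` of `κ`
(constancy on the boundary at every time: last hypothesis) and `del_formula`, `straight_line` are
unchanged. -/
def NONISO : Prop := ∀ (H : Type u) [Group H] [Finite H] (V : Type w) [NormedAddCommGroup V]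
  [InnerProductSpace ℝ V] [FiniteDimensional ℝ V] [MulAction H V], IsOrthogonalAction H V →
    (∃ h : H, h ≠ 1 ∧ ∃ v : V, v ≠ 0 ∧ h • v = v) →
    ∃ (N : ℕ) (X Y : C(Fin N → I, V)) (k : H) (g : V), 1 ≤ N ∧ ‖g‖ = 1 ∧
      (∀ h : H, h • g = g → h = 1) ∧ (∀ x, ‖X x‖ < 5) ∧ (∀ x, ‖Y x‖ < 5) ∧
      (∀ x (h : H), Y x ≠ h • X x) ∧ ConstBd X ∧ ConstBd Y ∧
      (∀ h : H, h • X 0 = X 0 → h = 1) ∧
      ∀ P Q : C(I × (Fin N → I), V), (∀ a, Q a ≠ P a) → (∀ a, Q a ≠ k • P a) →
        (∀ x, P (0, x) = X x) → (∀ x, Q (0, x) = Y x) → (∀ x, P (1, x) = X 0) →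
        (∀ t, ∀ x ∈ Cube.boundary (Fin N), ∀ y ∈ Cube.boundary (Fin N),
          P (t, x) = P (t, y) ∧ Q (t, x) = Q (t, y)) → False

/-- **MAINISO.**  Isolated singular point, `n = 1`.  (Assembly by helper33.) -/
def MAINISO : Prop := ∀ (H : Type u) [Group H] (V : Type w) [NormedAddCommGroup V]
  [InnerProductSpace ℝ V] [FiniteDimensional ℝ V] [MulAction H V] (E : Type v)
  [TopologicalSpace E] [MulAction H E], IsLinearAtZero H V →
    (∀ h : H, h ≠ 1 → h • (0 : V) = 0 → ∀ x : V, h • x = x → x = 0) →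
    2 ≤ Module.finrank ℝ V → IsUniversalSpace H E → ¬ IsQuasifibration H E V 1

/-- **MAINNON.**  Singular point which is not isolated, every `n`.  (Assembly by helper33.) -/
def MAINNON : Prop := ∀ (H : Type u) [Group H] (V : Type w) [NormedAddCommGroup V]
  [InnerProductSpace ℝ V] [FiniteDimensional ℝ V] [MulAction H V] (E : Type v)
  [TopologicalSpace E] [MulAction H E], IsLinearAtZero H V →
    (∃ h : H, h ≠ 1 ∧ h • (0 : V) = 0 ∧ ∃ x : V, x ≠ 0 ∧ h • x = x) →
    IsUniversalSpace H E → ∀ m : ℕ, ¬ IsQuasifibration H E V (m + 1)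

end

end Pool.Agent.Helper33.Iso
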